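import Pool.Agent.Lib.HX.Defs

set_option autoImplicit false

namespace HX

open Finset Classical

private theorem connect_aux {V : Type} [Fintype V] (E : V → V → Prop) (c : ℝ) (J : ℕ) (θ : ℝ)
    (R : Finset V) (hR : Res E c J θ R) (x : V) (j : ℕ) :
    j ≤ J → ∀ w : V, ((j < J ∧ w ∈ Oset E c x (j + 1)) ∨ j = J) → ∀ F : Finset V,
      ((F.filter (· ∈ R)).card : ℝ) + j + 1 ≤ θ →
      ∃ l : List V, l.length = j + 1 ∧ l.Nodup ∧ (∀ z ∈ l, z ∈ R ∧ z ∉ F) ∧
        List.IsChain E (x :: (l ++ [w])) := by
  induction j with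
  | zero =>
    intro hj w hw F hF
    have hcard : θ ≤ (((Oset E c x 0).filter fun z => E z w ∧ z ∈ R).card : ℝ) := by
      rcases hw with ⟨h1, h2⟩ | h1
      · exact hR.1 x 0 h1 w h2
      · have h2 := hR.2 x w
        rwa [← h1] at h2
    obtain ⟨z, hz, hzF⟩ : ∃ z ∈ (Oset E c x 0).filter fun z => E z w ∧ z ∈ R, z ∉ F := by
      by_contra hcon
      push Not at hcon
      have h1 : ((Oset E c x 0).filter fun z => E z w ∧ z ∈ R) ⊆ F.filter (· ∈ R) := by
        intro z hz
        rw [mem_filter]
        exact ⟨hcon z hz, ((mem_filter.1 hz).2).2⟩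
      have h2 : ((((Oset E c x 0).filter fun z => E z w ∧ z ∈ R).card : ℕ) : ℝ) ≤
          ((F.filter (· ∈ R)).card : ℝ) := by exact_mod_cast card_le_card h1
      push_cast at hF
      linarith
    rw [mem_filter] at hz
    have hxz : E x z := by
      have h1 : z ∈ univ.filter fun y => E x y := hz.1
      exact (mem_filter.1 h1).2
    refine ⟨[z], rfl, List.nodup_singleton z, ?_, ?_⟩
    · intro z' hz'
      rw [List.mem_singleton] at hz'
      rw [hz']
      exact ⟨hz.2.2, hzF⟩
    · simp [hxz, hz.2.1]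
  | succ j ih =>
    intro hj w hw F hF
    have hcard : θ ≤ (((Oset E c x (j + 1)).filter fun z => E z w ∧ z ∈ R).card : ℝ) := by
      rcases hw with ⟨h1, h2⟩ | h1
      · exact hR.1 x (j + 1) h1 w h2
      · have h2 := hR.2 x w
        rwa [← h1] at h2
    obtain ⟨z, hz, hzF⟩ : ∃ z ∈ (Oset E c x (j + 1)).filter fun z => E z w ∧ z ∈ R, z ∉ F := by
      by_contra hcon
      push Not at hcon
      have h1 : ((Oset E c x (j + 1)).filter fun z => E z w ∧ z ∈ R) ⊆ F.filter (· ∈ R) := by
        intro z hz
        rw [mem_filter]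
        exact ⟨hcon z hz, ((mem_filter.1 hz).2).2⟩
      have h2 : ((((Oset E c x (j + 1)).filter fun z => E z w ∧ z ∈ R).card : ℕ) : ℝ) ≤
          ((F.filter (· ∈ R)).card : ℝ) := by exact_mod_cast card_le_card h1
      push_cast at hF
      have h3 : (0 : ℝ) ≤ j := Nat.cast_nonneg j
      linarith
    rw [mem_filter] at hz
    obtain ⟨l, hl1, hl2, hl3, hl4⟩ := ih (by omega) z (Or.inl ⟨by omega, hz.1⟩) (insert z F) (by
      have h1 : (insert z F).filter (· ∈ R) ⊆ insert z (F.filter (· ∈ R)) := by
        intro u hu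
        rw [mem_filter, mem_insert] at hu
        rw [mem_insert, mem_filter]
        rcases hu with ⟨h | h, h'⟩
        · exact Or.inl h
        · exact Or.inr ⟨h, h'⟩
      have h2 := (card_le_card h1).trans (card_insert_le _ _)
      have h3 : ((((insert z F).filter (· ∈ R)).card : ℕ) : ℝ) ≤
          ((F.filter (· ∈ R)).card : ℝ) + 1 := by exact_mod_cast h2
      push_cast at hF
      linarith)
    refine ⟨l ++ [z], by simp [hl1], ?_, ?_, ?_⟩
    · rw [List.nodup_append]
      refine ⟨hl2, List.nodup_singleton z, ?_⟩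
      intro a ha b hb
      rw [List.mem_singleton] at hb
      rw [hb]
      rintro rfl
      exact (hl3 a ha).2 (mem_insert_self _ _)
    · intro u hu
      rw [List.mem_append, List.mem_singleton] at hu
      rcases hu with hu | hu
      · exact ⟨(hl3 u hu).1, fun h => (hl3 u hu).2 (mem_insert_of_mem h)⟩
      · rw [hu]
        exact ⟨hz.2.2, hzF⟩
    · have h1 : x :: (l ++ [z] ++ [w]) = (x :: (l ++ [z])) ++ [w] := by simp
      rw [h1, List.isChain_append]
      refine ⟨hl4, List.isChain_singleton w, ?_⟩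
      intro a ha b hb
      have h2 : (x :: (l ++ [z])).getLast? = some z := by
        rw [← List.cons_append, List.getLast?_concat]
      rw [h2] at ha
      simp only [Option.mem_def, Option.some.injEq, List.head?_cons] at ha hb
      rw [← ha, ← hb]
      exact hz.2.1

/-- JOB HX-Cn1 (easy). Connecting `x` to `y` through the reservoir `R`, avoiding `F`.

Proof. Backward greedy choice: by induction on `i ≤ J` prove that for every `j ≤ J` (with `j = i`) and every
`w` with (`j < J` and `w ∈ Oset E c x (j+1)`) or `j = J`, and every finset `F'` with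
`|F' ∩ R| + j + 1 ≤ θ`, there is a list `l` of length `j + 1`, nodup, members in `R` and not in `F'`, with
`IsChain E (x :: (l ++ [w]))`.  Choose `z ∈ Oset E c x j` with `E z w`, `z ∈ R`, `z ∉ F'` (there are at least
`θ` candidates and at most `|F' ∩ R| < θ` are forbidden).  If `j = 0` then `E x z`, take `[z]`.  Otherwise apply
the statement for `j - 1`, `w := z`, `F' := insert z F'` and append `z`. -/
theorem connect {V : Type} [Fintype V] (E : V → V → Prop) (c : ℝ) (J : ℕ) (θ : ℝ) (R F : Finset V)
    (hR : Res E c J θ R) (hF : ((F.filter (· ∈ R)).card : ℝ) + J + 1 ≤ θ) (x y : V) :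
    ∃ l : List V, l.length = J + 1 ∧ l.Nodup ∧ (∀ z ∈ l, z ∈ R ∧ z ∉ F) ∧
      List.IsChain E (x :: (l ++ [y])) :=
  connect_aux E c J θ R hR x J le_rfl y (Or.inr rfl) F hF

end HX
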