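import Pool.Agent.Lib.HX.Defs
import Pool.Agent.Lib.HX.Connect

section

set_option autoImplicit false

namespace HX

open Finset Classical

/-- JOB HX-Co1 (easy). A cyclic list can be started at any of its members.

Proof. `a :: l = l1 ++ b :: l2` (`List.append_of_mem`); if `l1 = []` nothing to do; else `l1 = a :: l1'`,
`l = l1' ++ b :: l2`, `l' = l2 ++ a :: l1'`; the chain `a :: l1' ++ b :: l2 ++ [a]` splits at `b` and at `a`
(`List.isChain_split`). -/
theorem cyc_rotate {V : Type} (R : V → V → Prop) (a : V) (l : List V)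
    (h : List.IsChain R (a :: (l ++ [a]))) (b : V) (hb : b ∈ a :: l) :
    ∃ l' : List V, (b :: l').Perm (a :: l) ∧ List.IsChain R (b :: (l' ++ [b])) := by
  rcases List.mem_cons.1 hb with rfl | hb
  · exact ⟨l, List.Perm.refl _, h⟩
  · obtain ⟨l1, l2, rfl⟩ := List.append_of_mem hb
    refine ⟨l2 ++ a :: l1, ?_, ?_⟩
    · have := List.perm_append_comm (l₁ := b :: l2) (l₂ := a :: l1)
      simpa using this
    · have h1 : a :: (l1 ++ b :: l2 ++ [a]) = (a :: l1) ++ b :: (l2 ++ [a]) := by simp
      rw [h1, List.isChain_split] at h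
      have h2 : b :: (l2 ++ a :: l1 ++ [b]) = (b :: l2) ++ a :: (l1 ++ [b]) := by simp
      rw [h2, List.isChain_split]
      obtain ⟨h3, h4⟩ := h
      exact ⟨by simpa using h4, by simpa using h3⟩

/-- JOB HX-Co1, second statement (easy). Contraction of a family of disjoint covering chains.

Proof. From the Hamilton cycle `i :: L` of indices take the list `(i :: L).flatMap P`; it is nonempty; write it as
`a :: l`, where `a` is the first element of `P i`.  `a :: (l ++ [a]) = ((i :: L).map P ++ [[a]]).flatten`; use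
`List.isChain_flatten`, `List.isChain_map`, and `List.nodup_flatMap`. -/
theorem contract {V ι : Type} (E : V → V → Prop) (P : ι → List V)
    (hP : ∀ i, P i ≠ [] ∧ (P i).IsChain E ∧ (P i).Nodup)
    (hdisj : ∀ i j, i ≠ j → List.Disjoint (P i) (P j)) (hcov : ∀ v, ∃ i, v ∈ P i)
    (h : Ham (fun i j => ∀ x ∈ (P i).getLast?, ∀ y ∈ (P j).head?, E x y)) : Ham E := by
  obtain ⟨i, L, hnd, hmem, hch⟩ := h
  obtain ⟨a, p, hap⟩ := List.exists_cons_of_ne_nil (hP i).1
  have hfl : (i :: L).flatMap P = a :: (p ++ L.flatMap P) := by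
    rw [List.flatMap_cons, hap, List.cons_append]
  refine ⟨a, p ++ L.flatMap P, ?_, ?_, ?_⟩
  · rw [← hfl, List.nodup_flatMap]
    refine ⟨fun x _ => (hP x).2.2, ?_⟩
    exact List.Pairwise.imp (fun {x y} hxy => hdisj x y hxy) hnd
  · intro v
    rw [← hfl, List.mem_flatMap]
    obtain ⟨j, hj⟩ := hcov v
    exact ⟨j, hmem j, hj⟩
  · have h1 : a :: (p ++ L.flatMap P ++ [a]) = ((i :: L).map P ++ [[a]]).flatten := by
      simp [hap, List.flatMap_def]
    rw [h1, List.isChain_flatten]
    · refine ⟨?_, ?_⟩
      · intro l hl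
        rcases List.mem_append.1 hl with hl | hl
        · obtain ⟨j, _, rfl⟩ := List.mem_map.1 hl
          exact (hP j).2.1
        · rw [List.mem_singleton.1 hl]
          exact List.isChain_singleton _
      · have h2 : List.IsChain (fun l₁ l₂ : List V => ∀ x ∈ l₁.getLast?, ∀ y ∈ l₂.head?, E x y)
            ((i :: (L ++ [i])).map P) := by
          rw [List.isChain_map]
          exact hch
        have h3 : (i :: (L ++ [i])).map P = (i :: L).map P ++ [P i] := by simp
        rw [h3, List.isChain_append] at h2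
        rw [List.isChain_append]
        refine ⟨h2.1, List.isChain_singleton _, ?_⟩
        intro x hx y hy
        have hy' : y = [a] := by simpa using hy.symm
        subst hy'
        have h4 := h2.2.2 x hx (P i) (by simp)
        rw [hap] at h4
        exact h4
    · intro hn
      rcases List.mem_append.1 hn with hn | hn
      · obtain ⟨j, _, hj⟩ := List.mem_map.1 hn
        exact (hP j).1 hj
      · simp at hn

end HX
end

section

set_option autoImplicit false

namespace HX

open Finset Classical

/-- one more factor -/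
private theorem factors_step {V : Type} [Fintype V] (E : V → V → Prop) (η ν : ℝ) (hν : 0 < ν)
    (hνη : ν ≤ η / 2) (hE : Expander E η ν) (hV : 0 < Fintype.card V)
    (U : Finset V)
    (hU : (Fintype.card V : ℝ) - ν / 2 * (Fintype.card V : ℝ) ≤ (U.card : ℝ)) (r : ℕ)
    (hr : (r : ℝ) + 1 ≤ ν / 4 * (Fintype.card V : ℝ)) (f : ℕ → V → V)
    (hf : ∀ j < r, Set.InjOn (f j) (U : Set V)) :
    ∃ g : {x // x ∈ U} → V, Function.Injective g ∧
      ∀ x, g x ∈ U.filter fun y => E x.1 y ∧ ∀ j < r, f j x.1 ≠ y := by
  obtain ⟨hout, hin, hexp⟩ := hE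
  set n : ℝ := (Fintype.card V : ℝ) with hn
  have hn0 : 0 < n := by
    rw [hn]
    exact_mod_cast hV
  have hη0 : 0 < η := by linarith
  rw [← Finset.all_card_le_biUnion_card_iff_exists_injective]
  intro s
  rcases s.eq_empty_or_nonempty with rfl | hs
  · simp
  set N := s.biUnion fun x => U.filter fun y => E x.1 y ∧ ∀ j < r, f j x.1 ≠ y with hN
  set Z : Finset V := s.map ⟨Subtype.val, Subtype.val_injective⟩ with hZ
  have hZs : Z.card = s.card := Finset.card_map _
  have hZU : Z ⊆ U := by
    intro z hz
    rw [hZ, Finset.mem_map] at hz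
    obtain ⟨x, -, rfl⟩ := hz
    exact x.2
  have hmem : ∀ w ∈ U, (r : ℝ) < (dIn E w Z : ℝ) → w ∈ N := by
    intro w hw hd
    by_contra hwN
    have hbad : ∀ x ∈ Z.filter (fun x => E x w), ∃ j, j < r ∧ f j x = w := by
      intro x hx
      rw [Finset.mem_filter, hZ, Finset.mem_map] at hx
      obtain ⟨⟨x', hx', rfl⟩, hxw⟩ := hx
      by_contra hcon
      push Not at hcon
      apply hwN
      rw [hN, Finset.mem_biUnion]
      refine ⟨x', hx', ?_⟩
      rw [Finset.mem_filter]
      exact ⟨hw, hxw, fun j hj => hcon j hj⟩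
    choose! J hJ using hbad
    have hd' : (Finset.range r).card < (Z.filter (fun x => E x w)).card := by
      rw [Finset.card_range]
      exact_mod_cast hd
    obtain ⟨x, hx, y, hy, hxy, hJxy⟩ := Finset.exists_ne_map_eq_of_card_lt_of_maps_to hd'
      (f := J) (fun x hx => Finset.mem_coe.2 (Finset.mem_range.mpr (hJ x hx).1))
    apply hxy
    have h1 := hJ x hx
    have h2 := hJ y hy
    apply hf (J x) h1.1 (hZU (Finset.mem_filter.mp hx).1) (hZU (Finset.mem_filter.mp hy).1)
    rw [h1.2, hJxy, h2.2]
  have hUc : ((Uᶜ : Finset V).card : ℝ) ≤ ν / 2 * n := by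
    rw [Finset.card_compl, Nat.cast_sub (Finset.card_le_univ U)]
    linarith
  have hgoal : (Z.card : ℝ) ≤ (N.card : ℝ) → s.card ≤ N.card := by
    intro h
    rw [← hZs]
    exact_mod_cast h
  apply hgoal
  by_cases h1 : (Z.card : ℝ) ≤ η / 2 * n
  · -- few vertices
    obtain ⟨x, hx⟩ := hs
    have hA : (dOut E x.1 univ : ℝ) ≤ ((U.filter fun y => E x.1 y).card : ℝ) + ν / 2 * n := by
      have h2 : (univ.filter fun y => E x.1 y) ⊆ (U.filter fun y => E x.1 y) ∪ Uᶜ := by
        intro y hy
        rw [Finset.mem_union, Finset.mem_filter, Finset.mem_compl]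
        by_cases hyU : y ∈ U
        · exact Or.inl ⟨hyU, (Finset.mem_filter.mp hy).2⟩
        · exact Or.inr hyU
      have h3 := (Finset.card_le_card h2).trans (Finset.card_union_le _ _)
      have h4 : ((univ.filter fun y => E x.1 y).card : ℝ) ≤
          ((U.filter fun y => E x.1 y).card : ℝ) + ((Uᶜ : Finset V).card : ℝ) := by
        exact_mod_cast h3
      unfold dOut
      linarith
    have hB : ((U.filter fun y => E x.1 y).card : ℝ) ≤
        ((U.filter fun y => E x.1 y ∧ ∀ j < r, f j x.1 ≠ y).card : ℝ) + r := by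
      have h2 : (U.filter fun y => E x.1 y) ⊆
          (U.filter fun y => E x.1 y ∧ ∀ j < r, f j x.1 ≠ y) ∪
            (Finset.range r).image fun j => f j x.1 := by
        intro y hy
        rw [Finset.mem_union, Finset.mem_filter, Finset.mem_image]
        by_cases hyj : ∀ j < r, f j x.1 ≠ y
        · exact Or.inl ⟨(Finset.mem_filter.mp hy).1, (Finset.mem_filter.mp hy).2, hyj⟩
        · push Not at hyj
          obtain ⟨j, hj, hjy⟩ := hyj
          exact Or.inr ⟨j, Finset.mem_range.mpr hj, hjy⟩
      have h3 := (Finset.card_le_card h2).trans (Finset.card_union_le _ _)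
      have h4 : ((Finset.range r).image fun j => f j x.1).card ≤ r :=
        Finset.card_image_le.trans (Finset.card_range r).le
      exact_mod_cast h3.trans (Nat.add_le_add_left h4 _)
    have hC : ((U.filter fun y => E x.1 y ∧ ∀ j < r, f j x.1 ≠ y).card : ℝ) ≤ (N.card : ℝ) := by
      have h2 : (U.filter fun y => E x.1 y ∧ ∀ j < r, f j x.1 ≠ y) ⊆ N := by
        intro y hy
        rw [hN, Finset.mem_biUnion]
        exact ⟨x, hx, hy⟩
      exact_mod_cast Finset.card_le_card h2
    have hD := hout x.1
    nlinarith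
  · push Not at h1
    by_cases h2 : (Z.card : ℝ) ≤ (1 - η / 2) * n
    · -- the middle range
      have h3 := hexp Z h1.le h2
      have h4 : (RN E (ν * n) Z) ⊆ N ∪ Uᶜ := by
        intro w hw
        rw [Finset.mem_union, Finset.mem_compl]
        by_cases hwU : w ∈ U
        · refine Or.inl (hmem w hwU ?_)
          have h5 : ν * n ≤ (dIn E w Z : ℝ) := (Finset.mem_filter.mp hw).2
          nlinarith
        · exact Or.inr hwU
      have h5 : ((RN E (ν * n) Z).card : ℝ) ≤ (N.card : ℝ) + ((Uᶜ : Finset V).card : ℝ) := by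
        exact_mod_cast (Finset.card_le_card h4).trans (Finset.card_union_le _ _)
      nlinarith
    · -- many vertices
      push Not at h2
      have h3 : U ⊆ N := by
        intro w hw
        apply hmem w hw
        have h4 : (dIn E w univ : ℝ) ≤ (dIn E w Z : ℝ) + ((Zᶜ : Finset V).card : ℝ) := by
          have h5 : (univ.filter fun x => E x w) ⊆ (Z.filter fun x => E x w) ∪ Zᶜ := by
            intro y hy
            rw [Finset.mem_union, Finset.mem_filter, Finset.mem_compl]
            by_cases hyZ : y ∈ Z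
            · exact Or.inl ⟨hyZ, (Finset.mem_filter.mp hy).2⟩
            · exact Or.inr hyZ
          unfold dIn
          exact_mod_cast (Finset.card_le_card h5).trans (Finset.card_union_le _ _)
        have h6 := hin w
        have h7 : ((Zᶜ : Finset V).card : ℝ) = n - Z.card := by
          rw [Finset.card_compl, Nat.cast_sub (Finset.card_le_univ Z)]
        rw [h7] at h4
        nlinarith
      have h4 : Z.card ≤ N.card := (Finset.card_le_card hZU).trans (Finset.card_le_card h3)
      exact_mod_cast h4

/-- JOB HX-F1 (medium). Many disjoint 1-factors of `E[U]`, one after the other, by Hall's theorem.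

Proof. Induction on `r`; let `f 0, ..., f (r-1)` be given, `r + 1 ≤ ν n / 4`, put
`E' x y := E x y ∧ ∀ j < r, f j x ≠ y` and look for an injective map `U → U`, `x ↦ y` with `E' x y`
(Hall: `Finset.all_card_le_biUnion_card_iff_exists_injective` with index type `{x // x ∈ U}` and
`t x := U.filter (E' x)`).  Let `Z ⊆ U` be nonempty, `N` the union of the `t x`, `x ∈ Z`.
* If `|Z| ≤ η n / 2`: take `x ∈ Z`; `E x` has at least `η n` members in `V`, at least `η n - ν n / 2` in `U`
  and at most `r ≤ ν n / 4` of them are removed, so `|N| ≥ η n - 3 ν n / 4 ≥ η n / 2 ≥ |Z|` (`ν ≤ η / 2`).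
* If `|Z| > (1 - η/2) n`: every `w ∈ U` has at least `η n - (n - |Z|) > η n / 2` in-neighbours in `Z`
  and for each `j < r` at most one `x ∈ Z` has `f j x = w` (injectivity), so at least
  `η n / 2 - ν n / 4 > 0` remain; so `N = U ⊇ Z`.
* Otherwise `|RN E (ν n) Z| ≥ |Z| + ν n`, at least `|Z| + ν n / 2` of these are in `U`, and each such `w`
  has at least `ν n - r > 0` remaining in-neighbours in `Z`, so `w ∈ N`.
Extend the new map to all of `V` by `x ↦ x` outside `U`, and define `f r` to be it. -/
theorem factors {V : Type} [Fintype V] (E : V → V → Prop) (η ν : ℝ) (hν : 0 < ν) (hνη : ν ≤ η / 2)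
    (hη : η ≤ 1) (hE : Expander E η ν) (hV : 0 < Fintype.card V) (U : Finset V)
    (hU : (Fintype.card V : ℝ) - ν / 2 * (Fintype.card V : ℝ) ≤ (U.card : ℝ)) (r : ℕ)
    (hr : (r : ℝ) ≤ ν / 4 * (Fintype.card V : ℝ)) :
    ∃ f : ℕ → V → V, (∀ j < r, ∀ x ∈ U, f j x ∈ U ∧ E x (f j x)) ∧
      (∀ j < r, Set.InjOn (f j) (U : Set V)) ∧
      (∀ i < r, ∀ j < r, i ≠ j → ∀ x ∈ U, f i x ≠ f j x) := by
  induction r with
  | zero => exact ⟨fun _ x => x, by simp, by simp, by simp⟩
  | succ r ih =>
    have hr' : (r : ℝ) + 1 ≤ ν / 4 * (Fintype.card V : ℝ) := by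
      push_cast at hr
      exact hr
    obtain ⟨f, hf1, hf2, hf3⟩ := ih (by linarith)
    obtain ⟨g, hg, hg'⟩ := factors_step E η ν hν hνη hE hV U hU r hr' f hf2
    have hgm : ∀ x (hx : x ∈ U), g ⟨x, hx⟩ ∈ U ∧ E x (g ⟨x, hx⟩) ∧ ∀ j < r, f j x ≠ g ⟨x, hx⟩ := by
      intro x hx
      have h := hg' ⟨x, hx⟩
      rw [Finset.mem_filter] at h
      exact h
    refine ⟨fun j x => if j = r then (if hx : x ∈ U then g ⟨x, hx⟩ else x) else f j x, ?_, ?_, ?_⟩
    · intro j hj x hx
      by_cases hjr : j = r
      · simp only [if_pos hjr, dif_pos hx]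
        exact ⟨(hgm x hx).1, (hgm x hx).2.1⟩
      · simp only [if_neg hjr]
        exact hf1 j (by omega) x hx
    · intro j hj x hx y hy hxy
      have hx' : x ∈ U := hx
      have hy' : y ∈ U := hy
      by_cases hjr : j = r
      · simp only [if_pos hjr, dif_pos hx', dif_pos hy'] at hxy
        exact congrArg Subtype.val (hg hxy)
      · simp only [if_neg hjr] at hxy
        exact hf2 j (by omega) hx hy hxy
    · intro i hi j hj hij x hx
      by_cases hir : i = r
      · have hjr : j ≠ r := fun h => hij (hir.trans h.symm)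
        simp only [if_pos hir, if_neg hjr, dif_pos hx]
        exact ((hgm x hx).2.2 j (by omega)).symm
      · by_cases hjr : j = r
        · simp only [if_neg hir, if_pos hjr, dif_pos hx]
          exact (hgm x hx).2.2 i (by omega)
        · simp only [if_neg hir, if_neg hjr]
          exact hf3 i (by omega) j (by omega) hij x hx

end HX
end

section

set_option autoImplicit false

namespace HX

open Finset Classical

private theorem dIn_lower {V : Type} [Fintype V] (E : V → V → Prop) (w : V) (U : Finset V) :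
    (dIn E w univ : ℝ) - ((Fintype.card V : ℝ) - U.card) ≤ (dIn E w U : ℝ) := by
  have h1 : (univ.filter fun x => E x w) ⊆ (U.filter fun x => E x w) ∪ Uᶜ := by
    intro x hx
    rw [mem_filter] at hx
    rw [mem_union, mem_filter, mem_compl]
    by_cases hU : x ∈ U
    · exact Or.inl ⟨hU, hx.2⟩
    · exact Or.inr hU
  have h2 := (card_le_card h1).trans (card_union_le _ _)
  rw [card_compl] at h2
  have h3 : U.card ≤ Fintype.card V := card_le_univ U
  have h4 : dIn E w univ ≤ dIn E w U + (Fintype.card V - U.card) := h2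
  have h5 : (dIn E w univ : ℝ) ≤ dIn E w U + ((Fintype.card V - U.card : ℕ) : ℝ) := by
    exact_mod_cast h4
  rw [Nat.cast_sub h3] at h5
  linarith

private theorem grow_aux {V : Type} [Fintype V] (E : V → V → Prop) (η ν : ℝ) (hν : 0 < ν)
    (hνη : ν ≤ η / 2) (hE : Expander E η ν) (hV : 0 < Fintype.card V) (x : V)
    (j : ℕ) : (η + j * ν) * (Fintype.card V : ℝ) ≤
        ((Oset E (ν * (Fintype.card V : ℝ)) x j).card : ℝ) ∨
      (1 - η / 2) * (Fintype.card V : ℝ) <
        ((Oset E (ν * (Fintype.card V : ℝ)) x j).card : ℝ) := by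
  obtain ⟨h1, h2, h3⟩ := hE
  have hN : (0 : ℝ) < (Fintype.card V : ℝ) := by exact_mod_cast hV
  induction j with
  | zero =>
    left
    have h4 := h1 x
    have h5 : ((Oset E (ν * (Fintype.card V : ℝ)) x 0).card : ℝ) = (dOut E x univ : ℝ) := rfl
    rw [h5]
    simpa using h4
  | succ j ih =>
    set O := Oset E (ν * (Fintype.card V : ℝ)) x j with hO
    have hsucc : Oset E (ν * (Fintype.card V : ℝ)) x (j + 1) =
        RN E (ν * (Fintype.card V : ℝ)) O := rfl
    rw [hsucc]
    rcases le_or_gt (O.card : ℝ) ((1 - η / 2) * (Fintype.card V : ℝ)) with h4 | h4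
    · left
      have h5 : (η + j * ν) * (Fintype.card V : ℝ) ≤ (O.card : ℝ) := by
        rcases ih with h | h
        · exact h
        · exact absurd h (not_lt.2 h4)
      have h6 : η / 2 * (Fintype.card V : ℝ) ≤ (O.card : ℝ) := by
        refine le_trans ?_ h5
        apply mul_le_mul_of_nonneg_right _ hN.le
        have : (0 : ℝ) ≤ j * ν := by positivity
        linarith
      have h7 := h3 O h6 h4
      push_cast
      linarith
    · right
      have h5 : RN E (ν * (Fintype.card V : ℝ)) O = univ := by
        refine eq_univ_of_forall fun w => ?_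
        unfold RN
        rw [mem_filter]
        refine ⟨mem_univ _, ?_⟩
        have h6 := dIn_lower E w O
        have h7 := h2 w
        have h8 : ν * (Fintype.card V : ℝ) ≤ η / 2 * (Fintype.card V : ℝ) :=
          mul_le_mul_of_nonneg_right hνη hN.le
        linarith
      rw [h5, card_univ]
      have : 0 < η / 2 * (Fintype.card V : ℝ) := mul_pos (by linarith) hN
      linarith

/-- JOB HX-G1 (easy). The iterated robust out-neighbourhoods grow until they are almost everything, so `V`
itself is a reservoir with `θ = ν n`.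

Proof. Let `c = ν n`, `O_j = Oset E c x j`.  Claim: for every `j`, `(η + j ν) n ≤ |O_j|` or
`(1 - η/2) n < |O_j|`.  `j = 0`: outdegree.  Step: if `|O_j| ≤ (1 - η/2) n` then `|O_j| ≥ (η + jν) n ≥ η n / 2`
and the expansion gives `|O_{j+1}| ≥ |O_j| + ν n`.  If `|O_j| > (1 - η/2) n`, every `w` has at least
`η n - (n - |O_j|) > η n / 2 ≥ ν n` in-neighbours in `O_j`, so `O_{j+1} = univ`.  For `j = J`, `1 ≤ ν J`, the first
alternative is impossible (`η > 0`, `n > 0`), so `|O_J| > (1 - η/2) n` and every `y` has at least `ν n`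
in-neighbours in `O_J`.  The first half of `Res` is the definition of `RN` (`z ∈ univ` is trivial). -/
theorem grow {V : Type} [Fintype V] (E : V → V → Prop) (η ν : ℝ) (hν : 0 < ν) (hνη : ν ≤ η / 2)
    (hη : η ≤ 1) (hE : Expander E η ν) (hV : 0 < Fintype.card V) (J : ℕ) (hJ : 1 ≤ ν * J) :
    Res E (ν * (Fintype.card V : ℝ)) J (ν * (Fintype.card V : ℝ)) univ := by
  have hN : (0 : ℝ) < (Fintype.card V : ℝ) := by exact_mod_cast hV
  constructor
  · intro x j _ w hw
    have hw' : w ∈ RN E (ν * (Fintype.card V : ℝ)) (Oset E (ν * (Fintype.card V : ℝ)) x j) := hw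
    unfold RN at hw'
    rw [mem_filter] at hw'
    refine hw'.2.trans (le_of_eq ?_)
    unfold dIn
    simp only [mem_univ, and_true]
  · intro x y
    have h1 : (1 - η / 2) * (Fintype.card V : ℝ) <
        ((Oset E (ν * (Fintype.card V : ℝ)) x J).card : ℝ) := by
      rcases grow_aux E η ν hν hνη hE hV x J with h | h
      · exfalso
        have h2 : ((Oset E (ν * (Fintype.card V : ℝ)) x J).card : ℝ) ≤ (Fintype.card V : ℝ) := by
          exact_mod_cast card_le_univ _
        have h3 : (η + J * ν) * (Fintype.card V : ℝ) ≤ 1 * (Fintype.card V : ℝ) := by linarith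
        have h4 := le_of_mul_le_mul_right h3 hN
        nlinarith
      · exact h
    have h2 := dIn_lower E y (Oset E (ν * (Fintype.card V : ℝ)) x J)
    have h3 := hE.2.1 y
    have h4 : ν * (Fintype.card V : ℝ) ≤ η / 2 * (Fintype.card V : ℝ) :=
      mul_le_mul_of_nonneg_right hνη hN.le
    have h5 : (((Oset E (ν * (Fintype.card V : ℝ)) x J).filter
        fun z => E z y ∧ z ∈ (univ : Finset V)).card : ℝ) =
        (dIn E y (Oset E (ν * (Fintype.card V : ℝ)) x J) : ℝ) := by
      unfold dIn
      simp only [mem_univ, and_true]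
    rw [h5]
    linarith

end HX
end

section

set_option autoImplicit false

namespace HX

open Finset Classical

/-- JOB HX-C1 (easy). Exponential moment of the size of a colour class, summed over all colourings.

Proof. `exp (lam * |S ∩ c⁻¹ k|) = ∏ v, g v (c v)` with `g v i = exp lam` if `v ∈ S` and `i = k`, else `1`
(`Real.exp_nat_mul`, `Finset.prod_ite`, card of a filter as a sum).  The sum over all `c : V → Fin K` of the
product is the product of the sums (`Finset.prod_univ_sum` and `Fintype.piFinset_univ`, or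
`Finset.sum_prod_piFinset`), and `∑ i, g v i = K` for `v ∉ S`, `K - 1 + exp lam` for `v ∈ S`. -/
theorem moment {V : Type} [Fintype V] (K : ℕ) (k : Fin K) (S : Finset V) (lam : ℝ) :
    ∑ c : V → Fin K, Real.exp (lam * ((S.filter fun v => c v = k).card : ℝ)) =
      (K : ℝ) ^ (Fintype.card V - S.card) * ((K : ℝ) - 1 + Real.exp lam) ^ S.card := by
  have h1 : ∀ c : V → Fin K, Real.exp (lam * ((S.filter fun v => c v = k).card : ℝ)) =
      ∏ v, (if v ∈ S ∧ c v = k then Real.exp lam else 1) := by
    intro c
    rw [Finset.prod_ite, Finset.prod_const, Finset.prod_const_one, mul_one, ← Real.exp_nat_mul,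
      mul_comm lam]
    congr 3
    congr 1
    ext v
    simp
  have h2 : ∑ c : V → Fin K, ∏ v, (if v ∈ S ∧ c v = k then Real.exp lam else 1) =
      ∏ v, ∑ i : Fin K, (if v ∈ S ∧ i = k then Real.exp lam else 1) := by
    rw [Finset.prod_univ_sum, Fintype.piFinset_univ]
  have h3 : ∀ v, ∑ i : Fin K, (if v ∈ S ∧ i = k then Real.exp lam else 1) =
      if v ∈ S then (K : ℝ) - 1 + Real.exp lam else (K : ℝ) := by
    intro v
    by_cases hv : v ∈ S
    · have e : ∀ i : Fin K, (if v ∈ S ∧ i = k then Real.exp lam else 1) =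
          1 + (if i = k then Real.exp lam - 1 else 0) := by
        intro i
        by_cases hi : i = k
        · rw [if_pos ⟨hv, hi⟩, if_pos hi]; ring
        · rw [if_neg fun h => hi h.2, if_neg hi]; ring
      rw [Finset.sum_congr rfl fun i _ => e i, Finset.sum_add_distrib, Finset.sum_ite_eq',
        if_pos (Finset.mem_univ k), if_pos hv]
      simp
      ring
    · rw [if_neg hv]
      have e : ∀ i : Fin K, (if v ∈ S ∧ i = k then Real.exp lam else 1) = 1 := by
        intro i
        rw [if_neg fun h => hv h.1]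
      rw [Finset.sum_congr rfl fun i _ => e i]
      simp
  rw [Finset.sum_congr rfl fun c _ => h1 c, h2, Finset.prod_congr rfl fun v _ => h3 v,
    Finset.prod_ite, Finset.prod_const, Finset.prod_const, mul_comm]
  congr 2
  · have e : (univ.filter fun v => v ∉ S) = Sᶜ := by
      ext v
      simp
    rw [e, Finset.card_compl]
  · congr 1
    ext v
    simp

end HX
end

section

set_option autoImplicit false

namespace HX

open Finset Classical

/-- JOB HX-S1 (medium/hard). Greedy selection of disjoint objects such that every `v` gets many objects of its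
family `A v` (method of conditional expectations).

Proof. For a partial choice `T_0, ..., T_{k-1}` let `X_v` be the number of `i < k` with `T_i ∈ A v` and
`Φ_k = ∑ v, exp (- X_v)`; `Φ_0 = n`.  Claim: for `k ≤ m` there are pairwise disjoint choices in `𝒯` with
`Φ_k ≤ n * exp (- a k / 4)`.  Step (`k < m`): let `G` be the set of `T ∈ 𝒯` with `vs T` disjoint from all
`vs T_i`, `i < k`.  The union of the `vs T_i` has at most `k s` elements, so at most `k s Δ ≤ a/2 |𝒯|` objects
are not in `G`.  So `|A v ∩ G| ≥ a |𝒯| - a/2 |𝒯| = a/2 |𝒯| ≥ a/2 |G|` for every `v`; `G` is nonempty (`V` and `𝒯`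
are).  Averaging over `T ∈ G`:
`∑_{T ∈ G} ∑_v exp (-X_v - [T ∈ A v]) = ∑_v exp (-X_v) (|G| - (1 - 1/e) |A v ∩ G|)`
`≤ ∑_v exp (-X_v) |G| (1 - (1 - 1/e) a/2) ≤ |G| Φ_k exp (-a/4)`
as `1 - 1/e ≥ 1/2` and `1 - x ≤ exp (-x)`.  So some `T ∈ G` is good (`Finset.exists_le_of_sum_le`).
At the end `exp (-X_v) ≤ Φ_m ≤ n exp (-a m / 4)`, so `X_v ≥ a m / 4 - log n ≥ a m / 8`. -/
theorem select {V : Type} [Fintype V] {α : Type} (𝒯 : Finset α) (vset : α → Finset V) (s : ℕ)
    (hs : ∀ T ∈ 𝒯, (vset T).card ≤ s) (Δ a : ℝ) (ha : 0 < a) (ha1 : a ≤ 1)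
    (hΔ : ∀ x : V, ((𝒯.filter fun T => x ∈ vset T).card : ℝ) ≤ Δ) (A : V → Finset α)
    (hA : ∀ v, A v ⊆ 𝒯) (hAc : ∀ v, a * (𝒯.card : ℝ) ≤ ((A v).card : ℝ)) (m : ℕ)
    (hm : (m : ℝ) * s * Δ ≤ a / 2 * (𝒯.card : ℝ)) (hV : 0 < Fintype.card V) (h𝒯 : 𝒯.Nonempty)
    (hlog : Real.log (Fintype.card V) ≤ a * m / 8) :
    ∃ T : Fin m → α, (∀ i, T i ∈ 𝒯) ∧ (∀ i j, i ≠ j → Disjoint (vset (T i)) (vset (T j))) ∧
      ∀ v, a * m / 8 ≤ ((univ.filter fun i => T i ∈ A v).card : ℝ) := by
  have hn0 : (0 : ℝ) < Fintype.card V := by exact_mod_cast hV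
  haveI : Nonempty V := Fintype.card_pos_iff.1 hV
  have hΔ0 : 0 ≤ Δ := le_trans (Nat.cast_nonneg _) (hΔ (Classical.arbitrary V))
  have h𝒯0 : (0 : ℝ) < 𝒯.card := by exact_mod_cast h𝒯.card_pos
  have key : ∀ k : ℕ, k ≤ m → ∃ T : Fin k → α, (∀ i, T i ∈ 𝒯) ∧
      (∀ i j, i ≠ j → Disjoint (vset (T i)) (vset (T j))) ∧
      ∑ v : V, Real.exp (-(∑ i, if T i ∈ A v then (1 : ℝ) else 0)) ≤
        (Fintype.card V : ℝ) * Real.exp (-(a * k / 4)) := by
    intro k
    induction k with
    | zero =>
      intro _
      refine ⟨Fin.elim0, fun i => i.elim0, fun i => i.elim0, ?_⟩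
      simp
    | succ k ih =>
      intro hk
      obtain ⟨T, hT, hTd, hTs⟩ := ih (by omega)
      set G : Finset α := 𝒯.filter fun T' => ∀ i, Disjoint (vset T') (vset (T i)) with hG
      set U : Finset V := univ.biUnion fun i => vset (T i) with hU
      have hUc : (U.card : ℝ) ≤ k * s := by
        have h1 : U.card ≤ ∑ i : Fin k, (vset (T i)).card := card_biUnion_le
        have h2 : ∑ i : Fin k, (vset (T i)).card ≤ ∑ _i : Fin k, s :=
          sum_le_sum fun i _ => hs _ (hT i)
        have h3 : U.card ≤ k * s := by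
          refine (h1.trans h2).trans ?_
          simp
        exact_mod_cast h3
      have hbad : ((𝒯 \ G).card : ℝ) ≤ a / 2 * 𝒯.card := by
        have hsub : 𝒯 \ G ⊆ U.biUnion fun x => 𝒯.filter fun T' => x ∈ vset T' := by
          intro T' hT'
          rw [mem_sdiff, hG, mem_filter, not_and] at hT'
          obtain ⟨h1, h2⟩ := hT'
          have h3 := h2 h1
          push Not at h3
          obtain ⟨i, hi⟩ := h3
          rw [Finset.not_disjoint_iff] at hi
          obtain ⟨x, hx1, hx2⟩ := hi
          rw [mem_biUnion]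
          exact ⟨x, mem_biUnion.2 ⟨i, mem_univ i, hx2⟩, mem_filter.2 ⟨h1, hx1⟩⟩
        have h1 : ((𝒯 \ G).card : ℝ) ≤
            ∑ x ∈ U, ((𝒯.filter fun T' => x ∈ vset T').card : ℝ) := by
          have := (card_le_card hsub).trans card_biUnion_le
          exact_mod_cast this
        have h2 : ∑ x ∈ U, ((𝒯.filter fun T' => x ∈ vset T').card : ℝ) ≤ U.card * Δ := by
          have := sum_le_sum (s := U) fun x _ => hΔ x
          rwa [sum_const, nsmul_eq_mul] at this
        have hkm : (k : ℝ) ≤ m := by exact_mod_cast (by omega : k ≤ m)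
        calc ((𝒯 \ G).card : ℝ) ≤ U.card * Δ := h1.trans h2
          _ ≤ (k * s) * Δ := mul_le_mul_of_nonneg_right hUc hΔ0
          _ ≤ (m * s) * Δ := by
            refine mul_le_mul_of_nonneg_right ?_ hΔ0
            exact mul_le_mul_of_nonneg_right hkm (Nat.cast_nonneg s)
          _ ≤ a / 2 * 𝒯.card := hm
      have hGsub : G ⊆ 𝒯 := filter_subset _ _
      have hGc : (G.card : ℝ) ≤ 𝒯.card := by exact_mod_cast card_le_card hGsub
      have hGpos : (0 : ℝ) < G.card := by
        have h1 : ((𝒯 \ G).card : ℝ) + G.card = 𝒯.card := by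
          exact_mod_cast card_sdiff_add_card_eq_card hGsub
        nlinarith
      have hGne : G.Nonempty := by
        rw [← card_pos]
        exact_mod_cast hGpos
      have hAG : ∀ v, a / 2 * (G.card : ℝ) ≤ ((G.filter fun T' => T' ∈ A v).card : ℝ) := by
        intro v
        have h1 : A v ⊆ (G.filter fun T' => T' ∈ A v) ∪ (𝒯 \ G) := by
          intro T' hT'
          by_cases h : T' ∈ G
          · exact mem_union_left _ (mem_filter.2 ⟨h, hT'⟩)
          · exact mem_union_right _ (mem_sdiff.2 ⟨hA v hT', h⟩)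
        have h2 : ((A v).card : ℝ) ≤ ((G.filter fun T' => T' ∈ A v).card : ℝ) +
            ((𝒯 \ G).card : ℝ) := by
          have := (card_le_card h1).trans (card_union_le _ _)
          exact_mod_cast this
        have h3 := hAc v
        have h4 : a / 2 * (G.card : ℝ) ≤ a / 2 * 𝒯.card :=
          mul_le_mul_of_nonneg_left hGc (by linarith)
        linarith
      -- averaging
      have hsum : ∑ T' ∈ G, ∑ v : V, Real.exp (-((∑ i, if T i ∈ A v then (1 : ℝ) else 0) +
          if T' ∈ A v then 1 else 0)) ≤ ∑ _T' ∈ G, ((Fintype.card V : ℝ) *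
            Real.exp (-(a * ((k + 1 : ℕ) : ℝ) / 4))) := by
        rw [sum_comm, sum_const, nsmul_eq_mul]
        have h1 : ∀ v : V, ∑ T' ∈ G, Real.exp (-((∑ i, if T i ∈ A v then (1 : ℝ) else 0) +
            if T' ∈ A v then 1 else 0)) ≤
            Real.exp (-(∑ i, if T i ∈ A v then (1 : ℝ) else 0)) *
              (G.card * Real.exp (-(a / 4))) := by
          intro v
          have h2 : ∀ T' ∈ G, Real.exp (-((∑ i, if T i ∈ A v then (1 : ℝ) else 0) +
              if T' ∈ A v then 1 else 0)) =
              Real.exp (-(∑ i, if T i ∈ A v then (1 : ℝ) else 0)) *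
                (1 - (if T' ∈ A v then 1 - Real.exp (-1) else 0)) := by
            intro T' _
            rw [neg_add, Real.exp_add]
            congr 1
            split_ifs
            · ring
            · simp
          rw [sum_congr rfl h2, ← mul_sum]
          refine mul_le_mul_of_nonneg_left ?_ (Real.exp_pos _).le
          rw [sum_sub_distrib, sum_const, nsmul_eq_mul, mul_one, ← sum_filter, sum_const,
            nsmul_eq_mul]
          have h3 := hAG v
          have h4 : (1 : ℝ) / 2 ≤ 1 - Real.exp (-1) := by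
            have h5 := Real.exp_one_gt_d9
            have h6 : Real.exp (-1) ≤ 1 / 2 := by
              rw [Real.exp_neg, inv_eq_one_div]
              exact one_div_le_one_div_of_le (by norm_num) (by linarith)
            linarith
          have h7 : 1 - a / 4 ≤ Real.exp (-(a / 4)) := by
            have := Real.add_one_le_exp (-(a / 4))
            linarith
          have h8 : (a / 2 * (G.card : ℝ)) * (1 / 2) ≤
              ((G.filter fun T' => T' ∈ A v).card : ℝ) * (1 - Real.exp (-1)) :=
            mul_le_mul h3 h4 (by norm_num) (Nat.cast_nonneg _)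
          have h9 : (G.card : ℝ) * (1 - a / 4) ≤ G.card * Real.exp (-(a / 4)) :=
            mul_le_mul_of_nonneg_left h7 hGpos.le
          linarith
        have h2 := sum_le_sum (s := univ) fun v _ => h1 v
        refine h2.trans ?_
        rw [← sum_mul]
        have h3 : Real.exp (-(a * ((k + 1 : ℕ) : ℝ) / 4)) =
            Real.exp (-(a * k / 4)) * Real.exp (-(a / 4)) := by
          rw [← Real.exp_add]
          congr 1
          push_cast
          ring
        rw [h3]
        have h4 : (0 : ℝ) ≤ G.card * Real.exp (-(a / 4)) :=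
          mul_nonneg hGpos.le (Real.exp_pos _).le
        have h5 := mul_le_mul_of_nonneg_right hTs h4
        linarith
      obtain ⟨T', hT'G, hT'⟩ := exists_le_of_sum_le hGne hsum
      have hT'1 := (mem_filter.1 hT'G).1
      have hT'2 := (mem_filter.1 hT'G).2
      refine ⟨Fin.snoc T T', ?_, ?_, ?_⟩
      · intro i
        refine Fin.lastCases ?_ (fun i => ?_) i
        · rw [Fin.snoc_last]; exact hT'1
        · rw [Fin.snoc_castSucc]; exact hT i
      · intro i j
        refine Fin.lastCases ?_ (fun i => ?_) i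
        · refine Fin.lastCases ?_ (fun j => ?_) j
          · intro h; exact absurd rfl h
          · intro _
            rw [Fin.snoc_last, Fin.snoc_castSucc]
            exact hT'2 j
        · refine Fin.lastCases ?_ (fun j => ?_) j
          · intro _
            rw [Fin.snoc_last, Fin.snoc_castSucc]
            exact (hT'2 i).symm
          · intro h
            rw [Fin.snoc_castSucc, Fin.snoc_castSucc]
            exact hTd i j fun h' => h (by rw [h'])
      · refine le_trans (le_of_eq ?_) hT'
        refine sum_congr rfl fun v _ => ?_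
        rw [Fin.sum_univ_castSucc]
        simp only [Fin.snoc_castSucc, Fin.snoc_last]
  obtain ⟨T, hT, hTd, hTs⟩ := key m le_rfl
  refine ⟨T, hT, hTd, fun v => ?_⟩
  have h1 : Real.exp (-(∑ i, if T i ∈ A v then (1 : ℝ) else 0)) ≤
      (Fintype.card V : ℝ) * Real.exp (-(a * m / 4)) :=
    (single_le_sum (f := fun v => Real.exp (-(∑ i, if T i ∈ A v then (1 : ℝ) else 0)))
      (fun v _ => (Real.exp_pos _).le) (mem_univ v)).trans hTs
  have h2 : (∑ i, if T i ∈ A v then (1 : ℝ) else 0) =
      ((univ.filter fun i => T i ∈ A v).card : ℝ) := by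
    rw [sum_boole]
  have h3 : (Fintype.card V : ℝ) * Real.exp (-(a * m / 4)) =
      Real.exp (Real.log (Fintype.card V) - a * m / 4) := by
    rw [sub_eq_add_neg, Real.exp_add, Real.exp_log hn0]
  rw [h3, Real.exp_le_exp, h2] at h1
  linarith

end HX
end

section

set_option autoImplicit false

namespace HX

open Finset Classical

/-- JOB HX-S2 (easy). Three counting facts about lists of arcs.

Proof. `mem_tups`: `List.ofFn`, `List.ofFn_get`.  `card_tups`: `List.ofFn` is injective, the number of functions
`Fin t → V × V` is `(n * n)^t`.  `card_tups_mem`: if `x ∈ vs (List.ofFn f)` then `(f k).1 = x` or `(f k).2 = x`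
for some `k : Fin t`; for fixed `k` and component, the number of such `f` is `n * (n * n)^(t-1) = n^(2t-1)`
(for `t ≥ 1`; e.g. via `Fintype.card_pi` / `Fintype.piFinset` with the set `{p | p.1 = x}` at `k` and `univ`
elsewhere), and there are `2 t` cases (union bound). -/
theorem mem_tups {V : Type} [Fintype V] (t : ℕ) (T : List (V × V)) : T ∈ tups V t ↔ T.length = t := by
  unfold tups
  rw [mem_image]
  constructor
  · rintro ⟨f, _, rfl⟩
    exact List.length_ofFn
  · rintro rfl
    exact ⟨T.get, mem_univ _, List.ofFn_get T⟩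

theorem card_tups {V : Type} [Fintype V] (t : ℕ) :
    (tups V t).card = (Fintype.card V) ^ (2 * t) := by
  unfold tups
  rw [card_image_of_injective _ List.ofFn_injective, card_univ, Fintype.card_fun, Fintype.card_prod,
    Fintype.card_fin, pow_mul, sq]

private theorem card_fun_apply {α : Type} [Fintype α] {t : ℕ} (k : Fin t) (P : α → Prop) :
    (univ.filter fun f : Fin t → α => P (f k)).card =
      (univ.filter P).card * (Fintype.card α) ^ (t - 1) := by
  set S := univ.filter P with hS
  have h1 : (univ.filter fun f : Fin t → α => P (f k)) =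
      Fintype.piFinset (Function.update (fun _ => (univ : Finset α)) k S) := by
    ext f
    rw [mem_filter, Fintype.mem_piFinset]
    constructor
    · rintro ⟨_, h⟩ j
      by_cases hj : j = k
      · subst hj
        simpa [hS] using h
      · simp [Function.update_of_ne hj]
    · intro h
      refine ⟨mem_univ _, ?_⟩
      simpa [hS] using h k
  rw [h1, Fintype.card_piFinset, ← Finset.mul_prod_erase univ _ (mem_univ k)]
  have h2 : ∀ j ∈ univ.erase k,
      (Function.update (fun _ => (univ : Finset α)) k S j).card = Fintype.card α := by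
    intro j hj
    rw [Function.update_of_ne (ne_of_mem_erase hj), card_univ]
  rw [Finset.prod_congr rfl h2, Finset.prod_const, card_erase_of_mem (mem_univ k), card_univ,
    Fintype.card_fin, Function.update_self]

theorem card_tups_mem {V : Type} [Fintype V] (t : ℕ) (x : V) :
    ((tups V t).filter fun T => x ∈ vs T).card ≤ 2 * t * (Fintype.card V) ^ (2 * t - 1) := by
  have h1 : ((tups V t).filter fun T => x ∈ vs T) ⊆
      ((univ : Finset (Fin t)).biUnion fun k =>
        (univ.filter fun f : Fin t → V × V => (f k).1 = x) ∪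
        (univ.filter fun f : Fin t → V × V => (f k).2 = x)).image
        (fun f : Fin t → V × V => List.ofFn f) := by
    intro T hT
    rw [mem_filter] at hT
    obtain ⟨hT, hx⟩ := hT
    unfold tups at hT
    rw [mem_image] at hT
    obtain ⟨f, _, rfl⟩ := hT
    refine mem_image.2 ⟨f, ?_, rfl⟩
    unfold vs at hx
    rw [List.mem_flatMap] at hx
    obtain ⟨p, hp, hxp⟩ := hx
    rw [List.mem_ofFn] at hp
    obtain ⟨k, rfl⟩ := hp
    rw [mem_biUnion]
    refine ⟨k, mem_univ _, ?_⟩
    simp only [List.mem_cons, List.not_mem_nil, or_false] at hxp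
    rw [mem_union]
    rcases hxp with h | h
    · left
      simp [h]
    · right
      simp [h]
  refine (card_le_card h1).trans (card_image_le.trans (card_biUnion_le.trans ?_))
  have h2 : ∀ k ∈ (univ : Finset (Fin t)),
      ((univ.filter fun f : Fin t → V × V => (f k).1 = x) ∪
        (univ.filter fun f : Fin t → V × V => (f k).2 = x)).card ≤
        2 * (Fintype.card V) ^ (2 * t - 1) := by
    intro k _
    refine (card_union_le _ _).trans ?_
    have h6 := card_fun_apply k (fun p : V × V => p.1 = x)
    have h7 := card_fun_apply k (fun p : V × V => p.2 = x)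
    rw [h6, h7]
    have h3 : (univ.filter fun p : V × V => p.1 = x).card = Fintype.card V := by
      have : (univ.filter fun p : V × V => p.1 = x) = ({x} : Finset V) ×ˢ (univ : Finset V) := by
        ext p
        rw [mem_filter, mem_product, mem_singleton]
        simp only [mem_univ, true_and, and_true]
      rw [this, card_product, card_singleton, card_univ, one_mul]
    have h4 : (univ.filter fun p : V × V => p.2 = x).card = Fintype.card V := by
      have : (univ.filter fun p : V × V => p.2 = x) = (univ : Finset V) ×ˢ ({x} : Finset V) := by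
        ext p
        rw [mem_filter, mem_product, mem_singleton]
        simp only [mem_univ, true_and]
      rw [this, card_product, card_singleton, card_univ, mul_one]
    have ht : 1 ≤ t := by
      have := k.2
      omega
    have h5 : Fintype.card V * Fintype.card (V × V) ^ (t - 1) = Fintype.card V ^ (2 * t - 1) := by
      rw [Fintype.card_prod, ← sq, ← pow_mul, ← pow_succ']
      congr 1
      omega
    rw [h3, h4, h5]
    exact (two_mul _).ge
  refine (Finset.sum_le_sum h2).trans ?_
  rw [Finset.sum_const, card_univ, Fintype.card_fin, smul_eq_mul]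
  apply le_of_eq
  ring

end HX
end

section

set_option autoImplicit false

namespace HX

open Finset Classical

/-- JOB HX-Cn2 (easy; uses `connect`). Connecting a nonempty list of disjoint chains to one chain through `R`.

Proof. Induction on `L`.  `L = [l]`: `M = l`, `W = ∅`.  `L = l :: L'`, `L' ≠ []`: let `M'`, `W'` be given for `L'`
(same `F`); `connect` from the last element of `l` to the first element of `M'` with forbidden set `F ∪ W'`
(`|(F ∪ W') ∩ R| ≤ |F ∩ R| + (L'.length) (J+1)`) gives `m` of length `J + 1`; `M = l ++ m ++ M'`,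
`W = W' ∪ m.toFinset`.  Chain: `List.isChain_append` etc.  Nodup: `l` and `M'` are disjoint since
`L.flatten` is nodup, all its members are in `F`, and `W` avoids `F`. -/
theorem join {V : Type} [Fintype V] (E : V → V → Prop) (c : ℝ) (J : ℕ) (θ : ℝ) (R : Finset V)
    (hR : Res E c J θ R) (F : Finset V) (L : List (List V)) (hL : L ≠ [])
    (hch : ∀ l ∈ L, l ≠ [] ∧ l.IsChain E) (hnd : L.flatten.Nodup) (hLF : ∀ v ∈ L.flatten, v ∈ F)
    (hF : ((F.filter (· ∈ R)).card : ℝ) + (L.length : ℝ) * ((J : ℝ) + 1) ≤ θ) :
    ∃ M : List V, M.IsChain E ∧ M.Nodup ∧ M ≠ [] ∧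
      ∃ W : Finset V, W ⊆ R ∧ (∀ v ∈ W, v ∉ F) ∧ W.card ≤ L.length * (J + 1) ∧
        ∀ v, v ∈ M ↔ v ∈ L.flatten ∨ v ∈ W := by
  induction L with
  | nil => exact absurd rfl hL
  | cons l L' ih =>
    obtain ⟨hl0, hlc⟩ := hch l List.mem_cons_self
    rw [List.flatten_cons] at hnd hLF
    by_cases hL' : L' = []
    · subst hL'
      refine ⟨l, hlc, ?_, hl0, ∅, empty_subset _, fun v hv => absurd hv (notMem_empty v), ?_, ?_⟩
      · simpa using hnd
      · rw [card_empty]
        exact Nat.zero_le _
      · intro v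
        simp
    · rw [List.nodup_append] at hnd
      obtain ⟨hnd1, hnd2, hnd3⟩ := hnd
      have hlen : ((l :: L').length : ℝ) = (L'.length : ℝ) + 1 := by
        rw [List.length_cons]
        push_cast
        ring
      rw [hlen] at hF
      obtain ⟨M', hM1, hM2, hM3, W', hW1, hW2, hW3, hW4⟩ := ih hL'
        (fun l' hl' => hch l' (List.mem_cons_of_mem _ hl')) hnd2
        (fun v hv => hLF v (List.mem_append_right _ hv)) (by nlinarith [Nat.cast_nonneg (α := ℝ) J])
      obtain ⟨m, hm1, hm2, hm3, hm4⟩ := connect E c J θ R (F ∪ W') hR (by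
        have h1 : (F ∪ W').filter (· ∈ R) ⊆ F.filter (· ∈ R) ∪ W' := by
          intro u hu
          rw [mem_filter, mem_union] at hu
          rw [mem_union, mem_filter]
          rcases hu with ⟨h | h, h'⟩
          · exact Or.inl ⟨h, h'⟩
          · exact Or.inr h
        have h2 : ((F ∪ W').filter (· ∈ R)).card ≤ (F.filter (· ∈ R)).card +
            L'.length * (J + 1) :=
          ((card_le_card h1).trans (card_union_le _ _)).trans (Nat.add_le_add_left hW3 _)
        have h3 : ((((F ∪ W').filter (· ∈ R)).card : ℕ) : ℝ) ≤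
            ((F.filter (· ∈ R)).card : ℝ) + (L'.length : ℝ) * ((J : ℝ) + 1) := by
          exact_mod_cast h2
        linarith) (l.getLast hl0) (M'.head hM3)
      have hm0 : m ≠ [] := by
        rintro rfl
        simp at hm1
      rw [List.isChain_cons] at hm4
      obtain ⟨hm5, hm6⟩ := hm4
      rw [List.isChain_append] at hm6
      obtain ⟨hm7, -, hm8⟩ := hm6
      rw [List.head?_append_of_ne_nil _ hm0] at hm5
      have hmM : List.IsChain E (m ++ M') := by
        rw [List.isChain_append]
        refine ⟨hm7, hM1, fun a ha b hb => hm8 a ha b ?_⟩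
        rw [List.head?_eq_some_head hM3] at hb
        exact hb
      have hdis1 : ∀ a ∈ m, ∀ b ∈ M', a ≠ b := by
        rintro a ha b hb rfl
        obtain ⟨-, h2⟩ := hm3 a ha
        rw [mem_union, not_or] at h2
        rcases (hW4 a).1 hb with h | h
        · exact h2.1 (hLF a (List.mem_append_right _ h))
        · exact h2.2 h
      have hdis2 : ∀ a ∈ l, ∀ b ∈ m ++ M', a ≠ b := by
        rintro a ha b hb rfl
        have haF : a ∈ F := hLF a (List.mem_append_left _ ha)
        rcases List.mem_append.1 hb with hb | hb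
        · exact (hm3 a hb).2 (mem_union_left _ haF)
        · rcases (hW4 a).1 hb with h | h
          · exact hnd3 a ha a h rfl
          · exact hW2 a h haF
      refine ⟨l ++ (m ++ M'), ?_, ?_, ?_, W' ∪ m.toFinset, ?_, ?_, ?_, ?_⟩
      · rw [List.isChain_append]
        refine ⟨hlc, hmM, fun a ha b hb => ?_⟩
        rw [List.getLast?_eq_some_getLast hl0] at ha
        rw [List.head?_append_of_ne_nil _ hm0] at hb
        have h1 := hm5 b hb
        rw [Option.mem_def, Option.some.injEq] at ha
        rw [← ha]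
        exact h1
      · rw [List.nodup_append]
        refine ⟨hnd1, ?_, hdis2⟩
        rw [List.nodup_append]
        exact ⟨hm2, hM2, hdis1⟩
      · simp [hl0]
      · refine union_subset hW1 fun v hv => ?_
        exact (hm3 v (List.mem_toFinset.1 hv)).1
      · intro v hv
        rcases mem_union.1 hv with hv | hv
        · exact hW2 v hv
        · intro h
          exact (hm3 v (List.mem_toFinset.1 hv)).2 (mem_union_left _ h)
      · refine (card_union_le _ _).trans ?_
        rw [List.length_cons, Nat.add_mul, Nat.one_mul]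
        exact Nat.add_le_add hW3 ((List.toFinset_card_le m).trans (le_of_eq hm1))
      · intro v
        rw [List.mem_append, List.mem_append, List.flatten_cons, List.mem_append, mem_union,
          List.mem_toFinset, hW4 v]
        tauto

end HX
end

section

set_option autoImplicit false

namespace HX

open Finset Classical

/-- JOB HX-C2 (easy; uses `moment`). For `|lam| ≤ 1`.

Proof. By `moment` the left side is `K^n * ((K - 1 + e^lam)/K)^{|S|} * e^{-lam |S| / K}` and
`(K - 1 + e^lam)/K = 1 + (e^lam - 1)/K ≤ exp ((e^lam - 1)/K)` (`Real.add_one_le_exp`; the base is positive), so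
it is at most `K^n * exp (|S| (e^lam - 1 - lam)/K) ≤ K^n * exp (|S| lam^2 / K) ≤ K^n * exp (lam^2 n)` since
`e^lam - 1 - lam ≤ lam^2` for `|lam| ≤ 1` (`Real.abs_exp_sub_one_sub_id_le`) and `K ≥ 1` (as `k : Fin K`). -/
theorem moment_le {V : Type} [Fintype V] (K : ℕ) (k : Fin K) (S : Finset V) (lam : ℝ) (hlam : |lam| ≤ 1) :
    ∑ c : V → Fin K,
        Real.exp (lam * (((S.filter fun v => c v = k).card : ℝ) - (S.card : ℝ) / K)) ≤
      (K : ℝ) ^ (Fintype.card V) * Real.exp (lam ^ 2 * (Fintype.card V : ℝ)) := by
  have hK : (1 : ℝ) ≤ K := by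
    have : 0 < K := Fin.pos k
    exact_mod_cast this
  have hK0 : (0 : ℝ) < K := by linarith
  have hS : S.card ≤ Fintype.card V := Finset.card_le_univ S
  have h1 : ∀ c : V → Fin K,
      Real.exp (lam * (((S.filter fun v => c v = k).card : ℝ) - (S.card : ℝ) / K)) =
      Real.exp (lam * ((S.filter fun v => c v = k).card : ℝ)) *
        Real.exp (-(lam * ((S.card : ℝ) / K))) := by
    intro c
    rw [← Real.exp_add]
    congr 1
    ring
  rw [Finset.sum_congr rfl fun c _ => h1 c, ← Finset.sum_mul, moment]
  have hbase : (K : ℝ) - 1 + Real.exp lam ≤ K * Real.exp ((Real.exp lam - 1) / K) := by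
    have h2 := Real.add_one_le_exp ((Real.exp lam - 1) / K)
    calc (K : ℝ) - 1 + Real.exp lam = K * ((Real.exp lam - 1) / K + 1) := by
          field_simp
          ring
      _ ≤ K * Real.exp ((Real.exp lam - 1) / K) := mul_le_mul_of_nonneg_left h2 hK0.le
  have hbase0 : 0 ≤ (K : ℝ) - 1 + Real.exp lam := by
    have := Real.exp_pos lam
    linarith
  have hpow : ((K : ℝ) - 1 + Real.exp lam) ^ S.card ≤
      (K : ℝ) ^ S.card * Real.exp ((S.card : ℝ) * ((Real.exp lam - 1) / K)) := by
    refine (pow_le_pow_left₀ hbase0 hbase _).trans (le_of_eq ?_)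
    rw [mul_pow, Real.exp_nat_mul]
  have hquad : Real.exp lam - 1 - lam ≤ lam ^ 2 :=
    (le_abs_self _).trans (Real.abs_exp_sub_one_sub_id_le hlam)
  have hSn : (S.card : ℝ) ≤ (Fintype.card V : ℝ) := by exact_mod_cast hS
  calc (K : ℝ) ^ (Fintype.card V - S.card) * ((K : ℝ) - 1 + Real.exp lam) ^ S.card *
        Real.exp (-(lam * ((S.card : ℝ) / K)))
      ≤ (K : ℝ) ^ (Fintype.card V - S.card) *
        ((K : ℝ) ^ S.card * Real.exp ((S.card : ℝ) * ((Real.exp lam - 1) / K))) *
        Real.exp (-(lam * ((S.card : ℝ) / K))) := by gcongr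
    _ = (K : ℝ) ^ (Fintype.card V) *
        Real.exp ((S.card : ℝ) * ((Real.exp lam - 1) / K) + -(lam * ((S.card : ℝ) / K))) := by
      rw [Real.exp_add, ← mul_assoc, ← pow_add, Nat.sub_add_cancel hS, mul_assoc]
    _ ≤ (K : ℝ) ^ (Fintype.card V) * Real.exp (lam ^ 2 * (Fintype.card V : ℝ)) := by
      have h5 : (S.card : ℝ) * ((Real.exp lam - 1) / K) + -(lam * ((S.card : ℝ) / K)) ≤
          lam ^ 2 * (Fintype.card V : ℝ) := by
        have h3 : (S.card : ℝ) * ((Real.exp lam - 1) / K) + -(lam * ((S.card : ℝ) / K)) =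
            (S.card : ℝ) * ((Real.exp lam - 1 - lam) / K) := by ring
        rw [h3]
        have h4 : (Real.exp lam - 1 - lam) / K ≤ lam ^ 2 := by
          rw [div_le_iff₀ hK0]
          nlinarith [sq_nonneg lam]
        calc (S.card : ℝ) * ((Real.exp lam - 1 - lam) / K) ≤ (S.card : ℝ) * lam ^ 2 := by gcongr
          _ ≤ (Fintype.card V : ℝ) * lam ^ 2 := by gcongr
          _ = _ := mul_comm _ _
      exact mul_le_mul_of_nonneg_left (Real.exp_le_exp.mpr h5) (by positivity)

end HX
end

section

set_option autoImplicit false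

namespace HX

open Finset Classical

private theorem col_n0 (a b c : ℝ) (hc : 0 < c) :
    ∃ n0 : ℕ, ∀ n : ℕ, n0 ≤ n → a + b * Real.log n ≤ c * n := by
  have h1 : (fun x : ℝ => a + b * Real.log x) =o[Filter.atTop] (id : ℝ → ℝ) :=
    (Asymptotics.isLittleO_const_id_atTop a).add (Real.isLittleO_log_id_atTop.const_mul_left b)
  have h2 := (h1.def hc)
  have h3 := tendsto_natCast_atTop_atTop (R := ℝ) |>.eventually h2
  obtain ⟨n0, hn0⟩ := Filter.eventually_atTop.mp h3
  refine ⟨n0, fun n hn => ?_⟩
  have h4 := hn0 n hn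
  rw [id, Real.norm_natCast] at h4
  exact (le_abs_self _).trans h4

/-- JOB HX-C3 (medium; uses `moment_le`). A colouring which splits polynomially many sets evenly.

Proof. We may assume `ε ≤ 2` (otherwise every colouring works because both numbers lie in `[0, n]`; or
replace `ε` by `min ε 2`).  Put `lam = ε / 2 ∈ (0, 1]`, `X_{i,k}(c) = |S_i ∩ c⁻¹ k| - |S_i| / K`.  Summing
`moment_le` for `lam` and `-lam` over all `i, k`:
`∑_c ∑_{i,k} (exp (lam X) + exp (-lam X)) ≤ 2 K n^d K^n exp (lam^2 n)`.  There are `K^n` colourings, so some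
`c` has `∑_{i,k} (exp (lam X) + exp (-lam X)) ≤ 2 K n^d exp (lam^2 n)` (if `ι` is empty nothing is to be shown;
`Finset.exists_le_of_sum_le` or contradiction).  Hence for all `i, k`:
`lam |X| ≤ log (2 K n^d) + lam^2 n`, i.e. `|X| ≤ log (2 K n^d) / lam + ε n / 2 ≤ ε n` as soon as
`log (2 K) + d log n ≤ ε^2 n / 4`, true for `n ≥ n0` (`Real.isLittleO_log_id_atTop` or `log n ≤ 2 √n`). -/
theorem colouring (K : ℕ) (hK : 0 < K) (ε : ℝ) (hε : 0 < ε) (d : ℕ) :
    ∃ n0 : ℕ, ∀ (V : Type) [Fintype V] (ι : Type) [Fintype ι] (S : ι → Finset V),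
      n0 ≤ Fintype.card V → Fintype.card ι ≤ (Fintype.card V) ^ d →
      ∃ c : V → Fin K, ∀ i k,
        |(((S i).filter fun v => c v = k).card : ℝ) - ((S i).card : ℝ) / K| ≤
          ε * (Fintype.card V : ℝ) := by
  -- the parameter
  obtain ⟨ε', hε'0, hε'2, hε'ε⟩ : ∃ ε' : ℝ, 0 < ε' ∧ ε' ≤ 2 ∧ ε' ≤ ε :=
    ⟨min ε 2, lt_min hε two_pos, min_le_right _ _, min_le_left _ _⟩
  obtain ⟨n0, hn0⟩ := col_n0 (Real.log (2 * K)) d (ε' ^ 2 / 4) (by positivity)
  refine ⟨max n0 1, fun V _ ι _ S hV hι => ?_⟩
  have hn : n0 ≤ Fintype.card V := (le_max_left _ _).trans hV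
  have hn1 : 1 ≤ Fintype.card V := (le_max_right _ _).trans hV
  have hlog := hn0 _ hn
  set n : ℕ := Fintype.card V with hndef
  have hnpos : (0 : ℝ) < n := by exact_mod_cast hn1
  have hKpos : (0 : ℝ) < K := by exact_mod_cast hK
  set lam : ℝ := ε' / 2 with hlam
  have hlam0 : 0 < lam := by positivity
  have hlam1 : |lam| ≤ 1 := by
    rw [abs_of_pos hlam0, hlam]
    linarith
  have hlam1' : |(-lam)| ≤ 1 := by rw [abs_neg]; exact hlam1
  let F : (V → Fin K) → ℝ := fun c => ∑ i : ι, ∑ k : Fin K,
    (Real.exp (lam * ((((S i).filter fun v => c v = k).card : ℝ) - ((S i).card : ℝ) / K)) +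
      Real.exp (-lam * ((((S i).filter fun v => c v = k).card : ℝ) - ((S i).card : ℝ) / K)))
  let M : ℝ := 2 * K * (n : ℝ) ^ d * Real.exp (lam ^ 2 * n)
  have hsum : ∑ c, F c ≤ ∑ _c : V → Fin K, M := by
    have e1 : ∑ c, F c = ∑ i : ι, ∑ k : Fin K, ((∑ c : V → Fin K,
        Real.exp (lam * ((((S i).filter fun v => c v = k).card : ℝ) - ((S i).card : ℝ) / K))) +
        ∑ c : V → Fin K,
        Real.exp (-lam * ((((S i).filter fun v => c v = k).card : ℝ) - ((S i).card : ℝ) / K))) := by
      show ∑ c, ∑ i : ι, ∑ k : Fin K, _ = _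
      rw [Finset.sum_comm]
      refine Finset.sum_congr rfl fun i _ => ?_
      rw [Finset.sum_comm]
      refine Finset.sum_congr rfl fun k _ => ?_
      rw [Finset.sum_add_distrib]
    rw [e1]
    calc ∑ i : ι, ∑ k : Fin K, ((∑ c : V → Fin K,
        Real.exp (lam * ((((S i).filter fun v => c v = k).card : ℝ) - ((S i).card : ℝ) / K))) +
        ∑ c : V → Fin K,
        Real.exp (-lam * ((((S i).filter fun v => c v = k).card : ℝ) - ((S i).card : ℝ) / K)))
        ≤ ∑ _i : ι, ∑ _k : Fin K, (2 * ((K : ℝ) ^ n * Real.exp (lam ^ 2 * n))) := by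
          refine Finset.sum_le_sum fun i _ => Finset.sum_le_sum fun k _ => ?_
          have h1 := moment_le K k (S i) lam hlam1
          have h2 := moment_le K k (S i) (-lam) hlam1'
          rw [neg_sq] at h2
          rw [two_mul]
          exact add_le_add h1 h2
      _ = (Fintype.card ι : ℝ) * (K * (2 * ((K : ℝ) ^ n * Real.exp (lam ^ 2 * n)))) := by
          simp only [Finset.sum_const, Finset.card_univ, Fintype.card_fin, nsmul_eq_mul]
      _ ≤ (n : ℝ) ^ d * (K * (2 * ((K : ℝ) ^ n * Real.exp (lam ^ 2 * n)))) := by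
          have h3 : (Fintype.card ι : ℝ) ≤ (n : ℝ) ^ d := by exact_mod_cast hι
          gcongr
      _ = ∑ _c : V → Fin K, M := by
          simp only [Finset.sum_const, Finset.card_univ, Fintype.card_fin, nsmul_eq_mul,
            Fintype.card_fun]
          push_cast
          show _ = (K : ℝ) ^ Fintype.card V * (2 * K * (n : ℝ) ^ d * Real.exp (lam ^ 2 * n))
          rw [← hndef]
          ring
  have hne : (Finset.univ : Finset (V → Fin K)).Nonempty := by
    have : Nonempty (Fin K) := ⟨⟨0, hK⟩⟩
    exact Finset.univ_nonempty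
  obtain ⟨c, -, hc⟩ := Finset.exists_le_of_sum_le hne hsum
  refine ⟨c, fun i k => ?_⟩
  set X : ℝ := (((S i).filter fun v => c v = k).card : ℝ) - ((S i).card : ℝ) / K with hX
  have h1 : Real.exp (lam * X) + Real.exp (-lam * X) ≤ M := by
    refine le_trans ?_ hc
    have hpos : ∀ i' k', 0 ≤
        Real.exp (lam * ((((S i').filter fun v => c v = k').card : ℝ) - ((S i').card : ℝ) / K)) +
        Real.exp (-lam * ((((S i').filter fun v => c v = k').card : ℝ) - ((S i').card : ℝ) / K)) :=
      fun i' k' => by positivity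
    calc Real.exp (lam * X) + Real.exp (-lam * X) ≤ ∑ k' : Fin K,
        (Real.exp (lam * ((((S i).filter fun v => c v = k').card : ℝ) - ((S i).card : ℝ) / K)) +
        Real.exp (-lam * ((((S i).filter fun v => c v = k').card : ℝ) - ((S i).card : ℝ) / K))) :=
          Finset.single_le_sum (f := fun k' => _) (fun k' _ => hpos i k') (Finset.mem_univ k)
      _ ≤ F c := Finset.single_le_sum (f := fun i' => ∑ k' : Fin K,
        (Real.exp (lam * ((((S i').filter fun v => c v = k').card : ℝ) - ((S i').card : ℝ) / K)) +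
        Real.exp (-lam * ((((S i').filter fun v => c v = k').card : ℝ) - ((S i').card : ℝ) / K))))
          (fun i' _ => Finset.sum_nonneg fun k' _ => hpos i' k') (Finset.mem_univ i)
  have h2 : Real.exp (lam * |X|) ≤ M := by
    rcases abs_cases X with ⟨h, -⟩ | ⟨h, -⟩
    · rw [h]
      have := Real.exp_pos (-lam * X)
      linarith
    · rw [h]
      have := Real.exp_pos (lam * X)
      have e : lam * -X = -lam * X := by ring
      rw [e]
      linarith
  have hnd : (0 : ℝ) < (n : ℝ) ^ d := by positivity
  have h3 : lam * |X| ≤ Real.log (2 * K) + d * Real.log n + lam ^ 2 * n := by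
    have h4 := Real.log_le_log (Real.exp_pos _) h2
    rw [Real.log_exp] at h4
    have h5 : Real.log M = Real.log (2 * K) + d * Real.log n + lam ^ 2 * n := by
      show Real.log (2 * K * (n : ℝ) ^ d * Real.exp (lam ^ 2 * n)) = _
      rw [Real.log_mul (by positivity) (Real.exp_pos _).ne', Real.log_mul (by positivity) hnd.ne',
        Real.log_exp, Real.log_pow]
    rw [h5] at h4
    exact h4
  have h6 : lam * |X| ≤ lam * (ε' * n) := by
    have e : lam * (ε' * n) = ε' ^ 2 / 4 * n + lam ^ 2 * n := by
      rw [hlam]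
      ring
    rw [e]
    linarith
  have h7 : |X| ≤ ε' * n := le_of_mul_le_mul_left h6 hlam0
  exact h7.trans (by gcongr)

end HX
end

section

set_option autoImplicit false

namespace HX

open Finset Classical

/-- JOB HX-TB1 (easy). Cutting a closed walk at the vertices of `D`.

Proof. Induction on `l` (for all `y`).  `l = []`: `Q = [a]`, `L = []`.  `l = x :: l'`: induction hypothesis for
`x`: `Q', L'` with `(φ x :: Q').IsChain E`.  If `x ∉ D` then `φ x = x`; take `Q = x :: Q'`, `L = L'`.  If `x ∈ D`
take `Q = [x]`, `L = (φ x :: Q') :: L'`. -/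
theorem cut {V : Type} (E : V → V → Prop) (D : Finset V) (φ : V → V) (hφ : ∀ x, x ∉ D → φ x = x)
    (a : V) (ha : a ∈ D) (l : List V) (y : V)
    (h : List.IsChain (fun x y => E (φ x) y) (y :: (l ++ [a]))) :
    ∃ (Q : List V) (L : List (List V)), Q ≠ [] ∧ (φ y :: Q).IsChain E ∧ (∀ P ∈ L, P.IsChain E) ∧
      L.map List.head? = (l.filter (· ∈ D)).map (fun x => some (φ x)) ∧
      (Q.getLast? :: L.map List.getLast?) = (l.filter (· ∈ D) ++ [a]).map some ∧
      (Q ++ L.flatten).Perm (l ++ a :: (l.filter (· ∈ D)).map φ) := by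
  induction l generalizing y with
  | nil =>
    refine ⟨[a], [], by simp, ?_, by simp, by simp, by simp, by simp⟩
    simpa using h
  | cons x l' ih =>
    rw [List.cons_append, List.isChain_cons_cons] at h
    obtain ⟨h1, h2⟩ := h
    obtain ⟨Q', L', hQ', hc, hL', hh, hl, hp⟩ := ih x h2
    by_cases hx : x ∈ D
    · refine ⟨[x], (φ x :: Q') :: L', by simp, ?_, ?_, ?_, ?_, ?_⟩
      · simpa using h1
      · intro P hP
        rcases List.mem_cons.1 hP with rfl | hP
        · exact hc
        · exact hL' P hP
      · rw [List.map_cons, hh]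
        simp [hx]
      · have h3 : (φ x :: Q').getLast? = Q'.getLast? := by
          obtain ⟨q, Q'', rfl⟩ := List.exists_cons_of_ne_nil hQ'
          simp
        rw [List.map_cons, h3, hl]
        simp [hx]
      · rw [List.flatten_cons]
        have h4 : (x :: l').filter (· ∈ D) = x :: l'.filter (· ∈ D) := by simp [hx]
        rw [h4, List.map_cons]
        simp only [List.cons_append, List.nil_append]
        refine List.Perm.cons _ ?_
        refine (List.Perm.cons (φ x) hp).trans ?_
        have h5 := (List.perm_middle (a := φ x) (l₁ := l' ++ [a])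
          (l₂ := (l'.filter (· ∈ D)).map φ)).symm
        simpa using h5
    · have hx' := hφ x hx
      rw [hx'] at hc
      refine ⟨x :: Q', L', by simp, ?_, hL', ?_, ?_, ?_⟩
      · rw [List.isChain_cons_cons]
        exact ⟨h1, hc⟩
      · rw [hh]
        simp [hx]
      · have h3 : (x :: Q').getLast? = Q'.getLast? := by
          obtain ⟨q, Q'', rfl⟩ := List.exists_cons_of_ne_nil hQ'
          simp
        rw [h3, hl]
        simp [hx]
      · have h4 : (x :: l').filter (· ∈ D) = l'.filter (· ∈ D) := by simp [hx]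
        rw [h4]
        exact List.Perm.cons _ hp

end HX
end
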