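import Mathlib

/-!
# HX: Hamilton cycles in dense robust expanders (definitions)

Everything is stated for a relation `E : V → V → Prop` on a finite type `V` (arcs `x → y` iff `E x y`;
loops and opposite arcs are allowed).  All files use classical decidability (`open Classical`) and never
assume `DecidableEq V`.

* `dOut E x Z`, `dIn E y Z` : numbers of out-neighbours and in-neighbours in the finset `Z`
* `RN E c Z` : vertices with at least `c` in-neighbours in `Z`;  `RI E c W` : vertices with at least `c`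
  out-neighbours in `W`
* `Expander E η ν` : minimum in- and out-degree at least `η n` and robust expansion
* `Ham E` : there is a Hamilton cycle (closed list)
* `Oset E c x j` : iterated robust out-neighbourhoods of `x`
* `Res E c J θ R` : `R` is a reservoir: all connecting steps have at least `θ` choices inside `R`
* `vs T`, `AbsL E v T` : vertices of a list of arcs, and the condition that the arcs `T` absorb `v`
-/

set_option autoImplicit false

namespace HX

open Finset Classical

variable {V : Type} [Fintype V]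

/-- number of out-neighbours of `x` in `Z` -/
noncomputable def dOut (E : V → V → Prop) (x : V) (Z : Finset V) : ℕ := (Z.filter fun y => E x y).card

/-- number of in-neighbours of `y` in `Z` -/
noncomputable def dIn (E : V → V → Prop) (y : V) (Z : Finset V) : ℕ := (Z.filter fun x => E x y).card

/-- robust out-neighbourhood of `Z`: vertices with at least `c` in-neighbours in `Z` -/
noncomputable def RN (E : V → V → Prop) (c : ℝ) (Z : Finset V) : Finset V :=
  univ.filter fun w => c ≤ (dIn E w Z : ℝ)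

/-- robust in-neighbourhood of `W`: vertices with at least `c` out-neighbours in `W` -/
noncomputable def RI (E : V → V → Prop) (c : ℝ) (W : Finset V) : Finset V :=
  univ.filter fun u => c ≤ (dOut E u W : ℝ)

/-- `(η, ν)`-expander on `n = |V|` vertices: in- and outdegrees at least `η n`, and
`|RN_ν(Z)| ≥ |Z| + ν n` whenever `η n / 2 ≤ |Z| ≤ (1 - η/2) n`. -/
def Expander (E : V → V → Prop) (η ν : ℝ) : Prop :=
  (∀ x, η * (Fintype.card V : ℝ) ≤ (dOut E x univ : ℝ)) ∧
  (∀ x, η * (Fintype.card V : ℝ) ≤ (dIn E x univ : ℝ)) ∧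
  ∀ Z : Finset V, η / 2 * (Fintype.card V : ℝ) ≤ (Z.card : ℝ) →
    (Z.card : ℝ) ≤ (1 - η / 2) * (Fintype.card V : ℝ) →
    (Z.card : ℝ) + ν * (Fintype.card V : ℝ) ≤ ((RN E (ν * (Fintype.card V : ℝ)) Z).card : ℝ)

/-- Hamilton cycle: the closed walk `a, l, a` uses every vertex exactly once. -/
def Ham {V : Type} (E : V → V → Prop) : Prop :=
  ∃ (a : V) (l : List V), (a :: l).Nodup ∧ (∀ v, v ∈ a :: l) ∧ List.IsChain E (a :: (l ++ [a]))

/-- iterated robust out-neighbourhoods of `x` -/
noncomputable def Oset (E : V → V → Prop) (c : ℝ) (x : V) : ℕ → Finset V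
  | 0 => univ.filter fun y => E x y
  | (j + 1) => RN E c (Oset E c x j)

/-- the sets `U_0 = N^-(v)`, `U_{i+1} = RI_{c'}(RN_c(U_i))` -/
noncomputable def Uset (E : V → V → Prop) (c c' : ℝ) (v : V) : ℕ → Finset V
  | 0 => univ.filter fun u => E u v
  | (i + 1) => RI E c' (RN E c (Uset E c c' v i))

/-- `R` is a reservoir: every step of every connection has at least `θ` choices in `R`. -/
def Res (E : V → V → Prop) (c : ℝ) (J : ℕ) (θ : ℝ) (R : Finset V) : Prop :=
  (∀ x, ∀ j < J, ∀ w ∈ Oset E c x (j + 1),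
    θ ≤ (((Oset E c x j).filter fun z => E z w ∧ z ∈ R).card : ℝ)) ∧
  (∀ x y, θ ≤ (((Oset E c x J).filter fun z => E z y ∧ z ∈ R).card : ℝ))

/-- the vertices of a list of arcs -/
def vs {V : Type} (T : List (V × V)) : List V := T.flatMap fun p => [p.1, p.2]

/-- The list of arcs `T = [(u_t, w_t), ..., (u_1, w_1)]` absorbs `v`: `u_i → w_i`, `u_{i+1} → w_i`,
`u_1 → v`, `v → w_t`. -/
def AbsL {V : Type} (E : V → V → Prop) (v : V) (T : List (V × V)) : Prop :=
  (∀ p ∈ T, E p.1 p.2) ∧ T.IsChain (fun p q => E p.1 q.2) ∧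
  (∀ q ∈ T.getLast?, E q.1 v) ∧ (∀ p ∈ T.head?, E v p.2)

/-- all lists of `t` arcs -/
noncomputable def tups (V : Type) [Fintype V] (t : ℕ) : Finset (List (V × V)) :=
  univ.image fun f : Fin t → V × V => List.ofFn f

/-- block expander between the out-side `O` and the in-side `I` -/
def BExp (E : V → V → Prop) (O I : Finset V) (η ν : ℝ) : Prop :=
  O.card = I.card ∧ (∀ x ∈ O, η * (O.card : ℝ) ≤ (dOut E x I : ℝ)) ∧
  (∀ y ∈ I, η * (O.card : ℝ) ≤ (dIn E y O : ℝ)) ∧
  ∀ Z ⊆ O, η / 2 * (O.card : ℝ) ≤ (Z.card : ℝ) → (Z.card : ℝ) ≤ (1 - η / 2) * (O.card : ℝ) →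
    (Z.card : ℝ) + ν * (O.card : ℝ) ≤
      ((I.filter fun w => ν * (O.card : ℝ) ≤ (dIn E w Z : ℝ)).card : ℝ)

end HX
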