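import Pool.Agent.Lib.HX.Defs
import Pool.Agent.Lib.HX.Connect

section

section

set_option autoImplicit false

namespace HX

open Finset Classical

private theorem chain_last {V : Type} {X : Finset V} {R : V → V → Prop}
    (hR : ∀ a b, R a b → a ∈ X) {x : V} (hx : x ∉ X) :
    ∀ l : List V, l.IsChain R → x ∈ l → l.getLast? = some x := by
  intro l
  induction l with
  | nil => intro _ h; exact absurd h List.not_mem_nil
  | cons a l ih =>
    intro hc hxl
    rw [List.isChain_cons] at hc
    obtain ⟨h1, h2⟩ := hc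
    cases l with
    | nil =>
      rw [List.mem_singleton] at hxl
      rw [hxl]
      rfl
    | cons b l =>
      rcases List.mem_cons.1 hxl with h | h
      · exfalso
        apply hx
        rw [h]
        exact hR a b (h1 b rfl)
      · have h3 := ih h2 h
        rw [List.getLast?_cons_cons]
        exact h3

private theorem chain_head {V : Type} {X : Finset V} {s : V → V} {R : V → V → Prop}
    (hR : ∀ a b, R a b → a ∈ X ∧ b = s a) {y : V} (hy : ∀ a ∈ X, s a ≠ y) :
    ∀ l : List V, l.IsChain R → y ∈ l → l.head? = some y := by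
  intro l
  induction l with
  | nil => intro _ h; exact absurd h List.not_mem_nil
  | cons a l ih =>
    intro hc hyl
    rw [List.isChain_cons] at hc
    obtain ⟨h1, h2⟩ := hc
    rcases List.mem_cons.1 hyl with h | h
    · rw [h]
      rfl
    · exfalso
      have h3 := ih h2 h
      obtain ⟨h4, h5⟩ := hR a y (h1 y h3)
      exact hy a h4 h5.symm

private theorem chain_rk {V : Type} {rk : V → ℕ} {R : V → V → Prop}
    (hR : ∀ a b, R a b → rk a < rk b) {x : V} :
    ∀ (l : List V) (y : V), l.IsChain R → l.head? = some y → l.getLast? = some x →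
      rk y ≤ rk x := by
  intro l
  induction l with
  | nil => intro y _ h; exact absurd h (by simp)
  | cons a l ih =>
    intro y hc hy hx
    rw [List.isChain_cons] at hc
    obtain ⟨h1, h2⟩ := hc
    rw [List.head?_cons, Option.some.injEq] at hy
    subst hy
    cases l with
    | nil =>
      rw [List.getLast?_singleton, Option.some.injEq] at hx
      rw [hx]
    | cons b l =>
      rw [List.getLast?_cons_cons] at hx
      exact (hR a b (h1 b rfl)).le.trans (ih b h2 rfl hx)

private theorem lists_aux {V : Type} [Fintype V] (E : V → V → Prop) (U : Finset V)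
    (rk : V → ℕ) (s : V → V) (X : Finset V) : X ⊆ U → Set.InjOn s (X : Set V) →
    (∀ x ∈ X, s x ∈ U ∧ rk x < rk (s x) ∧ E x (s x)) →
    ∃ L : List (List V), (∀ l ∈ L, l ≠ [] ∧
        l.IsChain (fun a b => a ∈ X ∧ b = s a ∧ E a b ∧ rk a < rk b)) ∧
      (∀ l ∈ L, ∀ z, l.getLast? = some z → z ∉ X) ∧
      (∀ l ∈ L, ∀ z, l.head? = some z → ∀ a ∈ X, s a ≠ z) ∧
      L.flatten.Nodup ∧ (∀ v, v ∈ L.flatten ↔ v ∈ U) ∧ L.length + X.card = U.card := by
  induction X using Finset.induction_on with
  | empty =>
    intro _ _ _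
    have hflat : ∀ K : List V, (K.map fun x => [x]).flatten = K := by
      intro K
      induction K with
      | nil => rfl
      | cons a K ih => rw [List.map_cons, List.flatten_cons, ih]; rfl
    refine ⟨U.toList.map fun x => [x], ?_, ?_, ?_, ?_, ?_, ?_⟩
    · intro l hl
      obtain ⟨x, -, rfl⟩ := List.mem_map.1 hl
      exact ⟨by simp, List.isChain_singleton x⟩
    · intro l _ z _
      exact notMem_empty z
    · intro l _ z _ a ha
      exact absurd ha (notMem_empty a)
    · rw [hflat]
      exact nodup_toList U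
    · intro v
      rw [hflat, mem_toList]
    · rw [List.length_map, length_toList, card_empty, add_zero]
  | insert x X hxX ih =>
    intro hXU hinj hs
    obtain ⟨L, hL1, hL2, hL3, hL4, hL5, hL6⟩ := ih
      (fun a ha => hXU (mem_insert_of_mem ha))
      (hinj.mono fun a ha => by
        rw [mem_coe] at ha ⊢
        exact mem_insert_of_mem ha)
      (fun a ha => hs a (mem_insert_of_mem ha))
    obtain ⟨hy, hrk, hE⟩ := hs x (mem_insert_self _ _)
    have hxU : x ∈ U := hXU (mem_insert_self _ _)
    obtain ⟨l1, hl1, hxl1⟩ := List.mem_flatten.1 ((hL5 x).2 hxU)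
    obtain ⟨l2, hl2, hyl2⟩ := List.mem_flatten.1 ((hL5 (s x)).2 hy)
    have hlast : l1.getLast? = some x :=
      chain_last (fun a b h => h.1) hxX l1 (hL1 l1 hl1).2 hxl1
    have hynot : ∀ a ∈ X, s a ≠ s x := by
      intro a ha h
      have h1 := hinj (mem_coe.2 (mem_insert_of_mem ha)) (mem_coe.2 (mem_insert_self _ _)) h
      exact hxX (h1 ▸ ha)
    have hhead : l2.head? = some (s x) :=
      chain_head (s := s) (fun a b h => ⟨h.1, h.2.1⟩) hynot l2 (hL1 l2 hl2).2 hyl2
    have hne : l2 ≠ l1 := by
      rintro rfl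
      have h1 := chain_rk (rk := rk) (fun a b h => h.2.2.2) l2 (s x) (hL1 l2 hl2).2 hhead hlast
      omega
    have hl2' : l2 ∈ L.erase l1 := (List.mem_erase_of_ne hne).2 hl2
    set L' := (L.erase l1).erase l2 with hL'
    have hperm : L.Perm (l1 :: l2 :: L') :=
      (List.perm_cons_erase hl1).trans ((List.perm_cons_erase hl2').cons l1)
    have hflat : L.flatten.Perm (l1 ++ (l2 ++ L'.flatten)) := by
      have h := hperm.flatten
      rwa [List.flatten_cons, List.flatten_cons] at h
    have hnd : (l1 ++ (l2 ++ L'.flatten)).Nodup := hflat.nodup_iff.1 hL4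
    have hmem : ∀ l ∈ L', l ∈ L := fun l hl =>
      List.mem_of_mem_erase (List.mem_of_mem_erase hl)
    have hnd' := hnd
    rw [List.nodup_append, List.nodup_append] at hnd'
    obtain ⟨-, ⟨-, -, hd2⟩, hd1⟩ := hnd'
    have hmono : ∀ l : List V, l.IsChain (fun a b => a ∈ X ∧ b = s a ∧ E a b ∧ rk a < rk b) →
        l.IsChain (fun a b => a ∈ insert x X ∧ b = s a ∧ E a b ∧ rk a < rk b) := fun l hl =>
      hl.imp fun a b h => ⟨mem_insert_of_mem h.1, h.2⟩
    have hl10 := (hL1 l1 hl1).1
    have hl20 := (hL1 l2 hl2).1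
    refine ⟨(l1 ++ l2) :: L', ?_, ?_, ?_, ?_, ?_, ?_⟩
    · intro l hl
      rcases List.mem_cons.1 hl with rfl | hl
      · refine ⟨by simp [hl10], ?_⟩
        rw [List.isChain_append]
        refine ⟨hmono _ (hL1 l1 hl1).2, hmono _ (hL1 l2 hl2).2, ?_⟩
        intro a ha b hb
        rw [hlast] at ha
        rw [hhead] at hb
        simp only [Option.mem_def, Option.some.injEq] at ha hb
        rw [← ha, ← hb]
        exact ⟨mem_insert_self _ _, rfl, hE, hrk⟩
      · exact ⟨(hL1 l (hmem l hl)).1, hmono _ (hL1 l (hmem l hl)).2⟩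
    · intro l hl z hz
      rw [mem_insert, not_or]
      rcases List.mem_cons.1 hl with rfl | hl
      · rw [List.getLast?_append_of_ne_nil _ hl20] at hz
        refine ⟨?_, hL2 l2 hl2 z hz⟩
        rintro rfl
        exact hd1 z hxl1 z (List.mem_append_left _ (List.mem_of_getLast? hz)) rfl
      · refine ⟨?_, hL2 l (hmem l hl) z hz⟩
        rintro rfl
        exact hd1 z hxl1 z (List.mem_append_right _
          (List.mem_flatten.2 ⟨l, hl, List.mem_of_getLast? hz⟩)) rfl
    · intro l hl z hz a ha
      rcases List.mem_cons.1 hl with rfl | hl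
      · rw [List.head?_append_of_ne_nil _ hl10] at hz
        rcases mem_insert.1 ha with rfl | ha
        · rintro rfl
          exact hd1 _ (List.mem_of_head? hz) _ (List.mem_append_left _ hyl2) rfl
        · exact hL3 l1 hl1 z hz a ha
      · rcases mem_insert.1 ha with rfl | ha
        · rintro rfl
          exact hd2 _ hyl2 _ (List.mem_flatten.2 ⟨l, hl, List.mem_of_head? hz⟩) rfl
        · exact hL3 l (hmem l hl) z hz a ha
    · rw [List.flatten_cons, List.append_assoc]
      exact hnd
    · intro v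
      rw [List.flatten_cons, List.append_assoc, ← hflat.mem_iff]
      exact hL5 v
    · have h1 := hperm.length_eq
      rw [List.length_cons, List.length_cons] at h1
      rw [List.length_cons, card_insert_of_notMem hxX]
      omega

/-- JOB HX-Fo1 (medium). An injective partial successor map `s` which increases a rank function `rk` gives a
partition of `U` into `|U| - |X|` chains.

Proof. Induction on the finset `X` (`Finset.induction_on`) of the stronger statement: there is
`L : List (List V)` such that every `l ∈ L` is nonempty and is a chain for the relation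
`fun a b => a ∈ X ∧ b = s a ∧ E a b ∧ rk a < rk b`, its last element is not in `X` and its first element is not
in `s '' X`; and `L.flatten.Nodup`, `v ∈ L.flatten ↔ v ∈ U`, `L.length + X.card = U.card`.
`X = ∅`: the singletons `U.toList.map (fun x => [x])`.
Step from `X` to `insert x X` (`x ∉ X`): let `l1 ∈ L` be the list containing `x`; as `x ∉ X`, the chain relation
shows that `x` is the last element of `l1`.  Similarly `s x ∈ U` is in some `l2 ∈ L`, and it is the first element
of `l2` because `s x` is not `s a` for an `a ∈ X` (injectivity on `insert x X`).  If `l1 = l2` then the ranks along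
`l1` increase from `s x` to `x`, so `rk (s x) ≤ rk x`, a contradiction.  So `L` is a permutation of
`l1 :: l2 :: L'` (`List.Perm`; all conditions are invariant under permutation) and we take `(l1 ++ l2) :: L'`
(the chain relation is monotone in `X`).
(Any other convenient induction is fine.) -/
theorem lists_of_succ {V : Type} [Fintype V] (E : V → V → Prop) (U X : Finset V) (hX : X ⊆ U)
    (rk : V → ℕ) (s : V → V) (hinj : Set.InjOn s (X : Set V))
    (hs : ∀ x ∈ X, s x ∈ U ∧ rk x < rk (s x) ∧ E x (s x)) :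
    ∃ L : List (List V), (∀ l ∈ L, l ≠ [] ∧ l.IsChain E) ∧ L.flatten.Nodup ∧
      (∀ v, v ∈ L.flatten ↔ v ∈ U) ∧ L.length + X.card = U.card := by
  obtain ⟨L, hL1, -, -, hL4, hL5, hL6⟩ := lists_aux E U rk s X hX hinj hs
  exact ⟨L, fun l hl => ⟨(hL1 l hl).1, (hL1 l hl).2.imp fun a b h => h.2.2.1⟩, hL4, hL5, hL6⟩

end HX
end

section

set_option autoImplicit false

namespace HX

open Finset Classical

/-- JOB HX-M1 (medium). In a nearly regular bipartite graph there is a nearly perfect matching.

Proof. Let `D = ⌈|X| (1 - a/b)⌉₊` dummy vertices be joined to all of `X`: apply Hall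
(`Finset.all_card_le_biUnion_card_iff_exists_injective`) with index type `{x // x ∈ X}` and
`t x := (Y.filter (H x)).image Sum.inl ∪ (univ : Finset (Fin D)).image Sum.inr ⊆ V ⊕ Fin D`.
For nonempty `Z ⊆ X` let `N` be the set of `y ∈ Y` with an in-neighbour in `Z`; double counting the arcs from
`Z` to `Y` gives `a |Z| ≤ b |N|`, so `|N| + D ≥ |Z| a/b + |X| (1 - a/b) ≥ |Z|` as `|Z| ≤ |X|` and `a ≤ b`.
Let `X'` be the set of `x ∈ X` not sent to a dummy: `|X'| ≥ |X| - D ≥ |X| a/b - 1`. -/
theorem near_matching {V : Type} [Fintype V] (H : V → V → Prop) (X Y : Finset V) (a b : ℝ)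
    (ha : 0 ≤ a) (hb : 0 < b) (hab : a ≤ b) (hX : ∀ x ∈ X, a ≤ (dOut H x Y : ℝ))
    (hY : ∀ y ∈ Y, (dIn H y X : ℝ) ≤ b) :
    ∃ (X' : Finset V) (f : V → V), X' ⊆ X ∧ (X.card : ℝ) * a ≤ ((X'.card : ℝ) + 1) * b ∧
      Set.InjOn f (X' : Set V) ∧ ∀ x ∈ X', f x ∈ Y ∧ H x (f x) := by
  set D : ℕ := ⌈(X.card : ℝ) * (1 - a / b)⌉₊ with hD
  have hab1 : a / b ≤ 1 := (div_le_one hb).2 hab
  have hab0 : 0 ≤ a / b := div_nonneg ha hb.le
  have hDlow : (X.card : ℝ) * (1 - a / b) ≤ (D : ℝ) := Nat.le_ceil _
  have hDup : (D : ℝ) < (X.card : ℝ) * (1 - a / b) + 1 :=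
    Nat.ceil_lt_add_one (mul_nonneg (Nat.cast_nonneg _) (by linarith))
  let t : {x // x ∈ X} → Finset (V ⊕ Fin D) := fun x =>
    (Y.filter (fun y => H x.1 y)).image Sum.inl ∪ (univ : Finset (Fin D)).image Sum.inr
  have hall : ∀ s : Finset {x // x ∈ X}, s.card ≤ (s.biUnion t).card := by
    intro s
    rcases s.eq_empty_or_nonempty with h0 | hne
    · subst h0; simp
    obtain ⟨x0, hx0⟩ := hne
    set Z : Finset V := s.image Subtype.val with hZ
    have hZc : Z.card = s.card := card_image_of_injective _ Subtype.val_injective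
    have hZX : Z ⊆ X := by
      intro z hz
      obtain ⟨y, -, rfl⟩ := mem_image.1 hz
      exact y.2
    set N : Finset V := Y.filter (fun y => ∃ x ∈ Z, H x y) with hN
    have hsub : N.image Sum.inl ∪ (univ : Finset (Fin D)).image Sum.inr ⊆ s.biUnion t := by
      intro w hw
      rw [mem_union] at hw
      rw [mem_biUnion]
      rcases hw with hw | hw
      · obtain ⟨y, hy, rfl⟩ := mem_image.1 hw
        obtain ⟨hyY, x, hxZ, hxy⟩ := mem_filter.1 hy
        obtain ⟨x', hx', rfl⟩ := mem_image.1 hxZ
        refine ⟨x', hx', mem_union_left _ (mem_image.2 ⟨y, mem_filter.2 ⟨hyY, hxy⟩, rfl⟩)⟩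
      · exact ⟨x0, hx0, mem_union_right _ hw⟩
    have hcard : (N.image Sum.inl ∪ (univ : Finset (Fin D)).image Sum.inr : Finset (V ⊕ Fin D)).card
        = N.card + D := by
      rw [card_union_of_disjoint, card_image_of_injective _ Sum.inl_injective,
        card_image_of_injective _ Sum.inr_injective, card_univ, Fintype.card_fin]
      rw [disjoint_left]
      intro w hw hw'
      obtain ⟨y, -, rfl⟩ := mem_image.1 hw
      obtain ⟨z, -, hz⟩ := mem_image.1 hw'
      exact Sum.inr_ne_inl hz
    have hcount : (Z.card : ℝ) * a ≤ (N.card : ℝ) * b := by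
      have h1 := sum_card_bipartiteAbove_eq_sum_card_bipartiteBelow (s := Z) (t := Y) H
      have h2 : ∑ y ∈ Y, (bipartiteBelow H Z y).card = ∑ y ∈ N, (bipartiteBelow H Z y).card := by
        refine (sum_subset (filter_subset _ _) fun y hy hy' => ?_).symm
        rw [card_eq_zero, ← not_nonempty_iff_eq_empty]
        rintro ⟨x, hx⟩
        rw [mem_bipartiteBelow] at hx
        exact hy' (mem_filter.2 ⟨hy, x, hx.1, hx.2⟩)
      have h3 : (Z.card : ℝ) * a ≤ ((∑ x ∈ Z, (bipartiteAbove H Y x).card : ℕ) : ℝ) := by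
        push_cast
        rw [← nsmul_eq_mul, ← sum_const]
        refine sum_le_sum fun x hx => ?_
        refine (hX x (hZX hx)).trans (le_of_eq ?_)
        unfold dOut bipartiteAbove
        congr
      have h4 : ((∑ y ∈ N, (bipartiteBelow H Z y).card : ℕ) : ℝ) ≤ (N.card : ℝ) * b := by
        push_cast
        rw [← nsmul_eq_mul, ← sum_const]
        refine sum_le_sum fun y hy => ?_
        have h5 := hY y (mem_filter.1 hy).1
        refine le_trans ?_ h5
        unfold dIn
        exact_mod_cast card_le_card fun x hx => by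
          rw [mem_bipartiteBelow] at hx
          exact mem_filter.2 ⟨hZX hx.1, hx.2⟩
      rw [h1, h2] at h3
      exact h3.trans h4
    have hZle : (Z.card : ℝ) ≤ X.card := by exact_mod_cast card_le_card hZX
    have hreal : (Z.card : ℝ) ≤ (N.card : ℝ) + D := by
      have h5 : (Z.card : ℝ) * (a / b) ≤ N.card := by
        rw [← mul_div_assoc, div_le_iff₀ hb]
        exact hcount
      have h6 : (Z.card : ℝ) * (1 - a / b) ≤ (X.card : ℝ) * (1 - a / b) :=
        mul_le_mul_of_nonneg_right hZle (by linarith)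
      nlinarith
    have hnat : Z.card ≤ N.card + D := by exact_mod_cast hreal
    calc s.card = Z.card := hZc.symm
      _ ≤ N.card + D := hnat
      _ = _ := hcard.symm
      _ ≤ _ := card_le_card hsub
  obtain ⟨f, hf, hft⟩ := (Finset.all_card_le_biUnion_card_iff_exists_injective t).1 hall
  set X' : Finset V := X.filter (fun x => ∃ (hx : x ∈ X) (v : V), f ⟨x, hx⟩ = Sum.inl v) with hX'
  have hg : ∀ x ∈ X', ∃ v : V, ∃ hx : x ∈ X, f ⟨x, hx⟩ = Sum.inl v := by
    intro x hx
    obtain ⟨-, hx, v, hv⟩ := mem_filter.1 hx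
    exact ⟨v, hx, hv⟩
  let g : V → V := fun x => if h : ∃ v : V, ∃ hx : x ∈ X, f ⟨x, hx⟩ = Sum.inl v then h.choose else x
  have hgs : ∀ x ∈ X', ∃ hx : x ∈ X, f ⟨x, hx⟩ = Sum.inl (g x) := by
    intro x hx
    have h := hg x hx
    have hgx : g x = h.choose := dif_pos h
    rw [hgx]
    exact h.choose_spec
  -- counting
  have hdum : (X \ X').card ≤ D := by
    have hex : ∀ x : {x // x ∈ X \ X'}, ∃ i : Fin D, ∃ hx : x.1 ∈ X, f ⟨x.1, hx⟩ = Sum.inr i := by
      rintro ⟨x, hx⟩
      obtain ⟨hx1, hx2⟩ := mem_sdiff.1 hx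
      rcases hfx : f ⟨x, hx1⟩ with v | i
      · exact absurd (mem_filter.2 ⟨hx1, hx1, v, hfx⟩) hx2
      · exact ⟨i, hx1, hfx⟩
    choose c hc1 hc2 using hex
    have hinj : Function.Injective c := by
      intro x y hxy
      have h1 := hc2 x
      have h2 := hc2 y
      rw [hxy, ← h2] at h1
      have h3 := congrArg (fun z : {x // x ∈ X} => z.1) (hf h1)
      exact Subtype.ext h3
    have := Fintype.card_le_of_injective c hinj
    rwa [Fintype.card_coe, Fintype.card_fin] at this
  have hXX : X' ⊆ X := filter_subset _ _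
  refine ⟨X', g, hXX, ?_, ?_, ?_⟩
  · have h1 : (X \ X').card + X'.card = X.card := card_sdiff_add_card_eq_card hXX
    have h2 : (X.card : ℝ) ≤ D + X'.card := by
      have : X.card ≤ D + X'.card := by omega
      exact_mod_cast this
    have h3 : (X.card : ℝ) * (a / b) ≤ X'.card + 1 := by nlinarith
    rw [← mul_div_assoc, div_le_iff₀ hb] at h3
    exact h3
  · intro x hx y hy hxy
    obtain ⟨hx1, hx2⟩ := hgs x hx
    obtain ⟨hy1, hy2⟩ := hgs y hy
    rw [hxy, ← hy2] at hx2
    exact congrArg Subtype.val (hf hx2)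
  · intro x hx
    obtain ⟨hx1, hx2⟩ := hgs x hx
    have h1 := hft ⟨x, hx1⟩
    rw [hx2] at h1
    rcases mem_union.1 h1 with h2 | h2
    · obtain ⟨y, hy, hyv⟩ := mem_image.1 h2
      have : y = g x := Sum.inl_injective hyv
      subst this
      exact ⟨(mem_filter.1 hy).1, (mem_filter.1 hy).2⟩
    · obtain ⟨z, -, hz⟩ := mem_image.1 h2
      exact absurd hz Sum.inr_ne_inl

end HX
end

section

set_option autoImplicit false

namespace HX

open Finset Classical

private theorem dIn_lower' {V : Type} [Fintype V] (E : V → V → Prop) (w : V) (U : Finset V) :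
    (dIn E w univ : ℝ) - ((Fintype.card V : ℝ) - U.card) ≤ (dIn E w U : ℝ) := by
  have h1 : (univ.filter fun x => E x w) ⊆ (U.filter fun x => E x w) ∪ Uᶜ := by
    intro x hx
    rw [mem_filter] at hx
    rw [mem_union, mem_filter, mem_compl]
    by_cases hU : x ∈ U
    · exact Or.inl ⟨hU, hx.2⟩
    · exact Or.inr hU
  have h2 := (card_le_card h1).trans (card_union_le _ _)
  rw [card_compl] at h2
  have h3 : U.card ≤ Fintype.card V := card_le_univ U
  have h4 : dIn E w univ ≤ dIn E w U + (Fintype.card V - U.card) := h2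
  have h5 : (dIn E w univ : ℝ) ≤ dIn E w U + ((Fintype.card V - U.card : ℕ) : ℝ) := by
    exact_mod_cast h4
  rw [Nat.cast_sub h3] at h5
  linarith

private theorem dOut_lower' {V : Type} [Fintype V] (E : V → V → Prop) (w : V) (U : Finset V) :
    (dOut E w univ : ℝ) - ((Fintype.card V : ℝ) - U.card) ≤ (dOut E w U : ℝ) :=
  dIn_lower' (fun x y => E y x) w U

/-- double counting of the arcs from `Z` to `W` -/
private theorem arcs_count {V : Type} [Fintype V] (E : V → V → Prop) (Z W : Finset V) :
    ∑ z ∈ Z, (dOut E z W : ℝ) = ∑ w ∈ W, (dIn E w Z : ℝ) := by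
  have h := Finset.sum_card_bipartiteAbove_eq_sum_card_bipartiteBelow (s := Z) (t := W) E
  have h1 : ∑ z ∈ Z, dOut E z W = ∑ w ∈ W, dIn E w Z := h
  exact_mod_cast h1

/-- JOB HX-A1 (medium). The robust in-neighbourhood of a set is almost as large as the set.

Proof. If `|W| > (1 - η/2) n`: every `u` has at least `η n - (n - |W|) > η n / 2 ≥ ν^2 n` out-neighbours in `W`,
so `RI = univ`.  Let `|W| ≤ (1 - η/2) n`, let `Z = univ \ RI E (ν^2 n) W` and suppose `|RI| < |W| - ν n / 2`, so
`|Z| > n - |W| + ν n / 2 ≥ η n / 2`.  Let `e` be the number of arcs from `Z` to `W`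
(`∑ z ∈ Z, dOut E z W = ∑ w ∈ W, dIn E w Z`, double counting, `Finset.sum_card_bipartiteAbove_eq_sum_card_bipartiteBelow`).
Every `z ∈ Z` has `dOut E z W < ν^2 n`, so `e < ν^2 n |Z| ≤ ν^2 n^2` (`Z` is nonempty).
* If `|Z| ≤ (1 - η/2) n`: `|RN E (ν n) Z| ≥ |Z| + ν n > n - |W| + 3 ν n / 2`, so more than `3 ν n / 2` elements `w`
  of `W` are in it, each with `dIn E w Z ≥ ν n`: `e ≥ 3/2 ν^2 n^2`, a contradiction.
* If `|Z| > (1 - η/2) n`: every `w ∈ W` has `dIn E w Z ≥ η n - (n - |Z|) ≥ η n / 2`, so
  `e ≥ |W| η n / 2 ≥ (η n / 2)^2 ≥ ν^2 n^2`, a contradiction. -/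
theorem ri_step {V : Type} [Fintype V] (E : V → V → Prop) (η ν : ℝ) (hν : 0 < ν) (hνη : ν ≤ η / 2)
    (hη : η ≤ 1) (hE : Expander E η ν) (hV : 0 < Fintype.card V) (W : Finset V)
    (hW : η / 2 * (Fintype.card V : ℝ) ≤ (W.card : ℝ)) :
    (W.card : ℝ) - ν / 2 * (Fintype.card V : ℝ) ≤
      ((RI E (ν ^ 2 * (Fintype.card V : ℝ)) W).card : ℝ) := by
  obtain ⟨h1, h2, h3⟩ := hE
  have hN : (0 : ℝ) < (Fintype.card V : ℝ) := by exact_mod_cast hV
  set N : ℝ := (Fintype.card V : ℝ) with hNdef
  have hη0 : 0 < η := by linarith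
  have hν2 : ν ^ 2 ≤ η / 2 := by nlinarith
  have hWN : (W.card : ℝ) ≤ N := by
    rw [hNdef]
    exact_mod_cast card_le_univ W
  rcases lt_or_ge ((1 - η / 2) * N) (W.card : ℝ) with hbig | hsmall
  · have h5 : RI E (ν ^ 2 * N) W = univ := by
      refine eq_univ_of_forall fun w => ?_
      unfold RI
      rw [mem_filter]
      refine ⟨mem_univ _, ?_⟩
      have h6 := dOut_lower' E w W
      have h7 := h1 w
      have h8 : ν ^ 2 * N ≤ η / 2 * N := mul_le_mul_of_nonneg_right hν2 hN.le
      linarith
    rw [h5, card_univ]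
    have : 0 ≤ ν / 2 * N := by positivity
    linarith
  · by_contra hcon
    push Not at hcon
    set RIW := RI E (ν ^ 2 * N) W with hRIW
    have hZcard : ((RIWᶜ).card : ℝ) = N - (RIW.card : ℝ) := by
      rw [card_compl, Nat.cast_sub (card_le_univ _)]
    set Z := RIWᶜ with hZ
    have hZbig : N - W.card + ν / 2 * N < (Z.card : ℝ) := by linarith
    have hZη : η / 2 * N ≤ (Z.card : ℝ) := by
      have : 0 ≤ ν / 2 * N := by positivity
      linarith
    have hZpos : (0 : ℝ) < Z.card := lt_of_lt_of_le (by positivity) hZη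
    have hZne : Z.Nonempty := by
      rw [← card_pos]
      exact_mod_cast hZpos
    have hZN : (Z.card : ℝ) ≤ N := by
      rw [hNdef]
      exact_mod_cast card_le_univ Z
    have he : ∑ w ∈ W, (dIn E w Z : ℝ) < ν ^ 2 * N * N := by
      rw [← arcs_count]
      have h4 : ∑ z ∈ Z, (dOut E z W : ℝ) < ∑ _z ∈ Z, ν ^ 2 * N := by
        refine sum_lt_sum_of_nonempty hZne fun z hz => ?_
        have h5 : z ∉ RIW := by
          rw [hZ] at hz
          exact mem_compl.1 hz
        by_contra h6
        push Not at h6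
        apply h5
        rw [hRIW]
        unfold RI
        rw [mem_filter]
        exact ⟨mem_univ _, h6⟩
      rw [sum_const, nsmul_eq_mul] at h4
      have h5 : (Z.card : ℝ) * (ν ^ 2 * N) ≤ N * (ν ^ 2 * N) :=
        mul_le_mul_of_nonneg_right hZN (by positivity)
      linarith
    rcases le_or_gt (Z.card : ℝ) ((1 - η / 2) * N) with hZs | hZb
    · have h4 := h3 Z hZη hZs
      set B := RN E (ν * N) Z with hB
      have h5 : N - W.card + 3 / 2 * (ν * N) < (B.card : ℝ) := by linarith
      have h6 : (B.card : ℝ) ≤ ((B ∩ W).card : ℝ) + (N - W.card) := by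
        have h7 : B ⊆ (B ∩ W) ∪ Wᶜ := by
          intro u hu
          rw [mem_union, mem_inter, mem_compl]
          by_cases hW' : u ∈ W
          · exact Or.inl ⟨hu, hW'⟩
          · exact Or.inr hW'
        have h8 := (card_le_card h7).trans (card_union_le _ _)
        rw [card_compl] at h8
        have h9 : (B.card : ℝ) ≤ ((B ∩ W).card : ℝ) + ((Fintype.card V - W.card : ℕ) : ℝ) := by
          exact_mod_cast h8
        rwa [Nat.cast_sub (card_le_univ W)] at h9
      have h7 : 3 / 2 * (ν * N) < ((B ∩ W).card : ℝ) := by linarith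
      have h8 : ((B ∩ W).card : ℝ) * (ν * N) ≤ ∑ w ∈ W, (dIn E w Z : ℝ) := by
        calc ((B ∩ W).card : ℝ) * (ν * N) = ∑ _w ∈ B ∩ W, ν * N := by
              rw [sum_const, nsmul_eq_mul]
          _ ≤ ∑ w ∈ B ∩ W, (dIn E w Z : ℝ) := by
              refine sum_le_sum fun w hw => ?_
              have h9 := (mem_inter.1 hw).1
              rw [hB] at h9
              unfold RN at h9
              exact (mem_filter.1 h9).2
          _ ≤ ∑ w ∈ W, (dIn E w Z : ℝ) :=
              sum_le_sum_of_subset_of_nonneg inter_subset_right fun _ _ _ => Nat.cast_nonneg _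
      have h9 : 0 < ν * N := mul_pos hν hN
      nlinarith [mul_lt_mul_of_pos_right h7 h9, mul_pos h9 h9]
    · have h4 : ∀ w ∈ W, η / 2 * N ≤ (dIn E w Z : ℝ) := by
        intro w _
        have h5 := dIn_lower' E w Z
        have h6 := h2 w
        linarith
      have h5 : (W.card : ℝ) * (η / 2 * N) ≤ ∑ w ∈ W, (dIn E w Z : ℝ) := by
        calc (W.card : ℝ) * (η / 2 * N) = ∑ _w ∈ W, η / 2 * N := by
              rw [sum_const, nsmul_eq_mul]
          _ ≤ _ := sum_le_sum h4
      have h6 : (η / 2 * N) * (η / 2 * N) ≤ (W.card : ℝ) * (η / 2 * N) :=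
        mul_le_mul_of_nonneg_right hW (by positivity)
      have h7 : ν * N ≤ η / 2 * N := mul_le_mul_of_nonneg_right hνη hN.le
      have h8 : (ν * N) * (ν * N) ≤ (η / 2 * N) * (η / 2 * N) :=
        mul_le_mul h7 h7 (by positivity) (by positivity)
      nlinarith

end HX
end

section

set_option autoImplicit false

namespace HX

open Finset Classical

private theorem dIn_lower'' {V : Type} [Fintype V] (E : V → V → Prop) (w : V) (U : Finset V) :
    (dIn E w univ : ℝ) - ((Fintype.card V : ℝ) - U.card) ≤ (dIn E w U : ℝ) := by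
  have h1 : (univ.filter fun x => E x w) ⊆ (U.filter fun x => E x w) ∪ Uᶜ := by
    intro x hx
    rw [mem_filter] at hx
    rw [mem_union, mem_filter, mem_compl]
    by_cases hU : x ∈ U
    · exact Or.inl ⟨hU, hx.2⟩
    · exact Or.inr hU
  have h2 := (card_le_card h1).trans (card_union_le _ _)
  rw [card_compl] at h2
  have h3 : U.card ≤ Fintype.card V := card_le_univ U
  have h4 : dIn E w univ ≤ dIn E w U + (Fintype.card V - U.card) := h2
  have h5 : (dIn E w univ : ℝ) ≤ dIn E w U + ((Fintype.card V - U.card : ℕ) : ℝ) := by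
    exact_mod_cast h4
  rw [Nat.cast_sub h3] at h5
  linarith

private theorem RN_univ {V : Type} [Fintype V] (E : V → V → Prop) (η ν : ℝ)
    (hνη : ν ≤ η / 2) (hE : Expander E η ν) (U : Finset V)
    (hU : (1 - η / 2) * (Fintype.card V : ℝ) < (U.card : ℝ)) :
    RN E (ν * (Fintype.card V : ℝ)) U = univ := by
  refine eq_univ_of_forall fun w => ?_
  unfold RN
  rw [mem_filter]
  refine ⟨mem_univ _, ?_⟩
  have h6 := dIn_lower'' E w U
  have h7 := hE.2.1 w
  have h8 : ν * (Fintype.card V : ℝ) ≤ η / 2 * (Fintype.card V : ℝ) :=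
    mul_le_mul_of_nonneg_right hνη (Nat.cast_nonneg _)
  linarith

private theorem uset_aux {V : Type} [Fintype V] (E : V → V → Prop) (η ν : ℝ) (hν : 0 < ν)
    (hνη : ν ≤ η / 2) (hη : η ≤ 1) (hE : Expander E η ν) (hV : 0 < Fintype.card V) (v : V) (i : ℕ) :
    (η + i * (ν / 2)) * (Fintype.card V : ℝ) ≤
        ((Uset E (ν * (Fintype.card V : ℝ)) (ν ^ 2 * (Fintype.card V : ℝ)) v i).card : ℝ) ∨
      (1 - ν / 2) * (Fintype.card V : ℝ) ≤
        ((Uset E (ν * (Fintype.card V : ℝ)) (ν ^ 2 * (Fintype.card V : ℝ)) v i).card : ℝ) := by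
  have hN : (0 : ℝ) < (Fintype.card V : ℝ) := by exact_mod_cast hV
  have hE' := hE
  obtain ⟨h1, h2, h3⟩ := hE'
  induction i with
  | zero =>
    left
    have h4 := h2 v
    have h5 : ((Uset E (ν * (Fintype.card V : ℝ)) (ν ^ 2 * (Fintype.card V : ℝ)) v 0).card : ℝ) =
        (dIn E v univ : ℝ) := rfl
    rw [h5]
    simpa using h4
  | succ i ih =>
    set U := Uset E (ν * (Fintype.card V : ℝ)) (ν ^ 2 * (Fintype.card V : ℝ)) v i with hU
    have hsucc : Uset E (ν * (Fintype.card V : ℝ)) (ν ^ 2 * (Fintype.card V : ℝ)) v (i + 1) =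
        RI E (ν ^ 2 * (Fintype.card V : ℝ)) (RN E (ν * (Fintype.card V : ℝ)) U) := rfl
    rw [hsucc]
    set N : ℝ := (Fintype.card V : ℝ) with hNdef
    have hνN : 0 < ν * N := mul_pos hν hN
    have hηN : η * N ≤ 1 * N := mul_le_mul_of_nonneg_right hη hN.le
    have hνηN : ν * N ≤ η / 2 * N := mul_le_mul_of_nonneg_right hνη hN.le
    have hiN : (0 : ℝ) ≤ i * (ν * N) := by positivity
    rcases le_or_gt (U.card : ℝ) ((1 - η / 2) * N) with h4 | h4
    · left
      have h5 : (η + i * (ν / 2)) * N ≤ (U.card : ℝ) := by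
        rcases ih with h | h
        · exact h
        · exfalso
          nlinarith
      have h6 : η / 2 * N ≤ (U.card : ℝ) := by nlinarith
      have h7 := h3 U h6 h4
      have h8 := ri_step E η ν hν hνη hη hE hV (RN E (ν * N) U) (by linarith)
      push_cast
      nlinarith
    · right
      rw [RN_univ E η ν hνη hE U h4]
      have h8 := ri_step E η ν hν hνη hη hE hV univ (by
        rw [card_univ]
        nlinarith)
      rw [card_univ] at h8
      linarith

/-- JOB HX-A2 (easy; uses `ri_step`). After `i ≥ 2/ν` alternations everything is reached.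

Proof. `U_i = Uset E (ν n) (ν^2 n) v i`, `W_i = RN E (ν n) U_i`.  Claim: `|U_i| ≥ min (η + i ν / 2) (1 - ν/2) n`
(which is at least `η n / 2`, since `ν ≤ η/2`, `η ≤ 1`).  `i = 0`: indegree.  Step: if `|U_i| ≤ (1 - η/2) n` the
expansion gives `|W_i| ≥ |U_i| + ν n`; otherwise every `w` has at least `η n - (n - |U_i|) > η n / 2 ≥ ν n`
in-neighbours in `U_i`, so `W_i = univ`.  By `ri_step` `|U_{i+1}| ≥ |W_i| - ν n / 2 ≥ min (|U_i| + ν n / 2) (n - ν n / 2)`.
If `2 ≤ ν i` then `η + i ν / 2 ≥ 1`, so `|U_i| ≥ (1 - ν/2) n > (1 - η/2) n` (`ν/2 ≤ η/4 < η/2`), hence `W_i = univ`. -/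
theorem uset_grow {V : Type} [Fintype V] (E : V → V → Prop) (η ν : ℝ) (hν : 0 < ν) (hνη : ν ≤ η / 2)
    (hη : η ≤ 1) (hE : Expander E η ν) (hV : 0 < Fintype.card V) (v : V) (i : ℕ) (hi : 2 ≤ ν * i) :
    RN E (ν * (Fintype.card V : ℝ))
      (Uset E (ν * (Fintype.card V : ℝ)) (ν ^ 2 * (Fintype.card V : ℝ)) v i) = univ := by
  have hN : (0 : ℝ) < (Fintype.card V : ℝ) := by exact_mod_cast hV
  apply RN_univ E η ν hνη hE
  have hνN : 0 < ν * (Fintype.card V : ℝ) := mul_pos hν hN
  have hνηN : ν * (Fintype.card V : ℝ) ≤ η / 2 * (Fintype.card V : ℝ) :=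
    mul_le_mul_of_nonneg_right hνη hN.le
  have hiN : 2 * (Fintype.card V : ℝ) ≤ ν * i * (Fintype.card V : ℝ) :=
    mul_le_mul_of_nonneg_right hi hN.le
  rcases uset_aux E η ν hν hνη hη hE hV v i with h | h
  · nlinarith
  · nlinarith

end HX
end

section

set_option autoImplicit false

namespace HX

open Finset Classical

private theorem ca_vs_cons {V : Type} (p : V × V) (T : List (V × V)) :
    vs (p :: T) = p.1 :: p.2 :: vs T := rfl

/-- the induction of `count_abs` -/
private theorem ca_key {V : Type} [Fintype V] (E : V → V → Prop) (ν : ℝ) (hν : 0 < ν)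
    (hν1 : ν ≤ 1) (v : V) (k : ℕ) :
    ∀ F : Finset V, (F.card : ℝ) + 2 * ((k : ℝ) + 1) ≤ ν ^ 2 / 2 * (Fintype.card V : ℝ) →
      ∀ w ∈ RN E (ν * (Fintype.card V : ℝ))
        (Uset E (ν * (Fintype.card V : ℝ)) (ν ^ 2 * (Fintype.card V : ℝ)) v k), w ∉ F →
      ∃ A : Finset (List (V × V)), (∀ T ∈ A, T.length = k + 1 ∧ (vs T).Nodup ∧
          (∀ x ∈ vs T, x ∉ F) ∧ (∀ p ∈ T, E p.1 p.2) ∧ T.IsChain (fun p q => E p.1 q.2) ∧
          (∀ q ∈ T.getLast?, E q.1 v) ∧ ∃ u T', T = (u, w) :: T') ∧
        (ν * (Fintype.card V : ℝ) / 2) * (ν ^ 3 * (Fintype.card V : ℝ) ^ 2 / 4) ^ k ≤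
          (A.card : ℝ) := by
  set n : ℝ := (Fintype.card V : ℝ) with hn
  have hn0 : 0 ≤ n := Nat.cast_nonneg _
  induction k with
  | zero =>
    intro F hF w hw hwF
    set S : Finset V := (Uset E (ν * n) (ν ^ 2 * n) v 0).filter fun u => E u w with hS
    have hSc : ν * n ≤ (S.card : ℝ) := (mem_filter.1 hw).2
    set S' := S \ insert w F with hS'
    have hS'c : ν * n / 2 ≤ (S'.card : ℝ) := by
      have h1 : S.card ≤ S'.card + (insert w F).card := by
        have := card_le_card_sdiff_add_card (s := S) (t := insert w F)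
        exact this
      have h2 : (insert w F).card ≤ F.card + 1 := card_insert_le _ _
      have h3 : (S.card : ℝ) ≤ S'.card + (F.card + 1) := by exact_mod_cast h1.trans (by omega)
      have h4 : ν ^ 2 / 2 * n ≤ ν * n / 2 := by nlinarith [mul_nonneg hν.le hn0]
      push_cast at hF
      linarith
    refine ⟨S'.image fun u => [(u, w)], ?_, ?_⟩
    · intro T hT
      rw [mem_image] at hT
      obtain ⟨u, hu, rfl⟩ := hT
      rw [hS', mem_sdiff, mem_insert, not_or] at hu
      obtain ⟨hu1, hu2, hu3⟩ := hu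
      have hu4 := mem_filter.1 hu1
      have hu5 : E u v := (mem_filter.1 hu4.1).2
      refine ⟨rfl, ?_, ?_, ?_, ?_, ?_, u, [], rfl⟩
      · rw [ca_vs_cons]
        simp [vs, hu2]
      · rw [ca_vs_cons]
        simp [vs, hu3, hwF]
      · simp [hu4.2]
      · simp
      · simp [hu5]
    · rw [pow_zero, mul_one, card_image_of_injective]
      · exact hS'c
      · intro a b hab
        simpa using hab
  | succ k ih =>
    intro F hF w hw hwF
    set S : Finset V := (Uset E (ν * n) (ν ^ 2 * n) v (k + 1)).filter fun u => E u w with hS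
    have hSc : ν * n ≤ (S.card : ℝ) := (mem_filter.1 hw).2
    set S' := S \ insert w F with hS'
    have hνn : ν ^ 2 / 2 * n ≤ ν * n / 2 := by nlinarith [mul_nonneg hν.le hn0]
    have hS'c : ν * n / 2 ≤ (S'.card : ℝ) := by
      have h1 : S.card ≤ S'.card + (insert w F).card :=
        card_le_card_sdiff_add_card (s := S) (t := insert w F)
      have h2 : (insert w F).card ≤ F.card + 1 := card_insert_le _ _
      have h3 : (S.card : ℝ) ≤ S'.card + (F.card + 1) := by exact_mod_cast h1.trans (by omega)
      have h5 : (0 : ℝ) ≤ k := Nat.cast_nonneg k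
      push_cast at hF
      linarith
    -- the choices of `w'`
    let W : V → Finset V := fun u => ((RN E (ν * n) (Uset E (ν * n) (ν ^ 2 * n) v k)).filter
      fun w' => E u w') \ insert u (insert w F)
    have hWc : ∀ u ∈ S', ν ^ 2 * n / 2 ≤ ((W u).card : ℝ) := by
      intro u hu
      rw [hS', mem_sdiff, mem_insert, not_or] at hu
      obtain ⟨hu1, hu2, hu3⟩ := hu
      have hu4 := (mem_filter.1 hu1).1
      have hu5 : ν ^ 2 * n ≤ (dOut E u (RN E (ν * n) (Uset E (ν * n) (ν ^ 2 * n) v k)) : ℝ) :=
        (mem_filter.1 hu4).2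
      have h1 : ((RN E (ν * n) (Uset E (ν * n) (ν ^ 2 * n) v k)).filter fun w' => E u w').card ≤
          (W u).card + (insert u (insert w F)).card :=
        card_le_card_sdiff_add_card
      have h2 : (insert u (insert w F)).card ≤ F.card + 2 := by
        have h3 := card_insert_le u (insert w F)
        have h4 := card_insert_le w F
        omega
      have h3 : (dOut E u (RN E (ν * n) (Uset E (ν * n) (ν ^ 2 * n) v k)) : ℝ) ≤
          (W u).card + (F.card + 2) := by
        have h4 := h1.trans (Nat.add_le_add_left h2 _)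
        exact_mod_cast h4
      have h5 : (0 : ℝ) ≤ k := Nat.cast_nonneg k
      push_cast at hF
      linarith
    have hex : ∀ u w', ∃ A' : Finset (List (V × V)), u ∈ S' → w' ∈ W u →
        (∀ T ∈ A', T.length = k + 1 ∧ (vs T).Nodup ∧
          (∀ x ∈ vs T, x ∉ insert u (insert w F)) ∧ (∀ p ∈ T, E p.1 p.2) ∧
          T.IsChain (fun p q => E p.1 q.2) ∧
          (∀ q ∈ T.getLast?, E q.1 v) ∧ ∃ u T', T = (u, w') :: T') ∧
        (ν * n / 2) * (ν ^ 3 * n ^ 2 / 4) ^ k ≤ (A'.card : ℝ) := by
      intro u w'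
      by_cases h : u ∈ S' ∧ w' ∈ W u
      · obtain ⟨hu, hw'⟩ := h
        rw [mem_sdiff] at hw'
        have hF' : ((insert u (insert w F)).card : ℝ) + 2 * ((k : ℝ) + 1) ≤ ν ^ 2 / 2 * n := by
          have h2 : (insert u (insert w F)).card ≤ F.card + 2 := by
            have h3 := card_insert_le u (insert w F)
            have h4 := card_insert_le w F
            omega
          have h3 : ((insert u (insert w F)).card : ℝ) ≤ F.card + 2 := by exact_mod_cast h2
          push_cast at hF
          linarith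
        obtain ⟨A', hA'⟩ := ih _ hF' w' (mem_filter.1 hw'.1).1 hw'.2
        exact ⟨A', fun _ _ => hA'⟩
      · exact ⟨∅, fun h1 h2 => absurd ⟨h1, h2⟩ h⟩
    choose A' hA' using hex
    let B : V → Finset (List (V × V)) := fun u =>
      (W u).biUnion fun w' => (A' u w').image (fun T => (u, w) :: T)
    have hBc : ∀ u ∈ S', (ν ^ 2 * n / 2) * ((ν * n / 2) * (ν ^ 3 * n ^ 2 / 4) ^ k) ≤
        ((B u).card : ℝ) := by
      intro u hu
      have hdis : ∀ w1 ∈ W u, ∀ w2 ∈ W u, w1 ≠ w2 →
          Disjoint ((A' u w1).image (fun T => (u, w) :: T))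
            ((A' u w2).image (fun T => (u, w) :: T)) := by
        intro w1 h1 w2 h2 hne
        rw [Finset.disjoint_left]
        intro T hT1 hT2
        rw [mem_image] at hT1 hT2
        obtain ⟨T1, hT1, rfl⟩ := hT1
        obtain ⟨T2, hT2, h12⟩ := hT2
        have h12' : T2 = T1 := by simpa using h12
        obtain ⟨_, _, _, _, _, _, u1, T1', e1⟩ := (hA' u w1 hu h1).1 T1 hT1
        obtain ⟨_, _, _, _, _, _, u2, T2', e2⟩ := (hA' u w2 hu h2).1 T2 hT2
        rw [h12', e1] at e2
        have e3 : (u1, w1) = (u2, w2) := (List.cons.inj e2).1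
        exact hne (Prod.mk.inj e3).2
      rw [card_biUnion hdis]
      push_cast
      have h1 : ∀ w' ∈ W u, (ν * n / 2) * (ν ^ 3 * n ^ 2 / 4) ^ k ≤
          (((A' u w').image (fun T => (u, w) :: T)).card : ℝ) := by
        intro w' hw'
        rw [card_image_of_injective _ (fun a b hab => by simpa using hab)]
        exact (hA' u w' hu hw').2
      have h2 := sum_le_sum h1
      rw [sum_const, nsmul_eq_mul] at h2
      refine le_trans (mul_le_mul_of_nonneg_right (hWc u hu) (by positivity)) h2
    have hmemB : ∀ u, ∀ T ∈ B u, ∃ w' ∈ W u, ∃ T1 ∈ A' u w', T = (u, w) :: T1 := by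
      intro u T hT
      rw [mem_biUnion] at hT
      obtain ⟨w', hw', hT⟩ := hT
      rw [mem_image] at hT
      obtain ⟨T1, hT1, rfl⟩ := hT
      exact ⟨w', hw', T1, hT1, rfl⟩
    refine ⟨S'.biUnion B, ?_, ?_⟩
    · intro T hT
      rw [mem_biUnion] at hT
      obtain ⟨u, hu, hT⟩ := hT
      obtain ⟨w', hw', T1, hT1, rfl⟩ := hmemB u T hT
      obtain ⟨h1, h2, h3, h4, h5, h6, u1, T1', e1⟩ := (hA' u w' hu hw').1 T1 hT1
      have hu0 := hu
      rw [hS', mem_sdiff, mem_insert, not_or] at hu
      obtain ⟨hu1, hu2, hu3⟩ := hu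
      have hEuw : E u w := (mem_filter.1 hu1).2
      have hEuw' : E u w' := (mem_filter.1 (mem_sdiff.1 hw').1).2
      refine ⟨by rw [List.length_cons, h1], ?_, ?_, ?_, ?_, ?_, u, T1, rfl⟩
      · rw [ca_vs_cons, List.nodup_cons, List.nodup_cons, List.mem_cons, not_or]
        refine ⟨⟨hu2, fun h => ?_⟩, fun h => ?_, h2⟩
        · exact h3 u h (mem_insert_self _ _)
        · exact h3 w h (mem_insert_of_mem (mem_insert_self _ _))
      · intro x hx
        rw [ca_vs_cons, List.mem_cons, List.mem_cons] at hx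
        rcases hx with rfl | rfl | hx
        · exact hu3
        · exact hwF
        · exact fun h => h3 x hx (mem_insert_of_mem (mem_insert_of_mem h))
      · intro p hp
        rw [List.mem_cons] at hp
        rcases hp with rfl | hp
        · exact hEuw
        · exact h4 p hp
      · rw [e1] at h5 ⊢
        rw [List.isChain_cons_cons]
        exact ⟨hEuw', h5⟩
      · intro q hq
        apply h6
        rw [e1] at hq ⊢
        rw [List.getLast?_cons_cons] at hq
        exact hq
    · have hdis : ∀ u1 ∈ S', ∀ u2 ∈ S', u1 ≠ u2 → Disjoint (B u1) (B u2) := by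
        intro u1 _ u2 _ hne
        rw [Finset.disjoint_left]
        intro T hT1 hT2
        obtain ⟨_, _, T1, _, e1⟩ := hmemB u1 T hT1
        obtain ⟨_, _, T2, _, e2⟩ := hmemB u2 T hT2
        rw [e1] at e2
        have e3 : (u1, w) = (u2, w) := (List.cons.inj e2).1
        exact hne (Prod.mk.inj e3).1
      rw [card_biUnion hdis]
      push_cast
      have h2 := sum_le_sum hBc
      rw [sum_const, nsmul_eq_mul] at h2
      refine le_trans ?_ h2
      have h3 : ν * n / 2 * (ν ^ 3 * n ^ 2 / 4) ^ (k + 1) =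
          (ν * n / 2) * ((ν ^ 2 * n / 2) * ((ν * n / 2) * (ν ^ 3 * n ^ 2 / 4) ^ k)) := by
        rw [pow_succ]
        ring
      rw [h3]
      exact mul_le_mul_of_nonneg_right hS'c (by positivity)

/-- JOB HX-A3 (hard; uses `uset_grow`). Every vertex `v` is absorbed by a positive proportion of all lists of
`i + 1` arcs.

Proof. `c = ν n`, `c' = ν^2 n`, `U_k = Uset E c c' v k`, `W_k = RN E c U_k`.  By induction on `k` prove `P k`:
for every finset `F` with `|F| + 2 (k + 1) ≤ ν^2 n / 2` and every `w ∈ W_k`, `w ∉ F`, there is a finset `A` of lists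
`T` with: `T.length = k + 1`, `(vs T).Nodup`, no element of `vs T` is in `F`, `∀ p ∈ T, E p.1 p.2`,
`T.IsChain (fun p q => E p.1 q.2)`, `∀ q ∈ T.getLast?, E q.1 v`, `∀ p ∈ T.head?, p.2 = w`, `T ≠ []`; and
`(ν n / 2) * (ν^3 n^2 / 4)^k ≤ |A|`.
* `k = 0`: the lists `[(u, w)]` with `u ∈ N^-(v)`, `E u w`, `u ∉ F`, `u ≠ w`: at least `ν n - |F| - 1 ≥ ν n / 2`.
* `k + 1`: choose `u ∈ U_{k+1}` with `E u w`, `u ∉ F`, `u ≠ w` (at least `ν n / 2` choices); as
  `u ∈ RI E c' W_k` there are at least `ν^2 n / 2` choices of `w' ∈ W_k` with `E u w'`, `w' ∉ insert u (insert w F)`; and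
  take `T = (u, w) :: T'` for `T'` in the set given by `P k` for `F' = insert u (insert w F)` and `w'`
  (`|F'| + 2(k+1) ≤ |F| + 2(k+2)`).  `T` determines `u` and `w'` (head of `T'`), so these sets are disjoint
  (`Finset.card_biUnion`, `Finset.card_image_of_injective` for `cons`) and the number is at least
  `(ν n / 2) (ν^2 n / 2) * (ν n / 2)(ν^3 n^2/4)^k`.
Finally `W_i = univ` by `uset_grow`; take the union over the `w` with `E v w` (at least `η n ≥ ν n` of them) of the
sets from `P i` with `F = ∅`; disjoint since `w` is the second component of the head.  The number is at least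
`ν n (ν n / 2) (ν^3 n^2 / 4)^i ≥ (ν^3 n^2 / 4)^(i+1)` as `ν ≤ 1`. -/
theorem count_abs {V : Type} [Fintype V] (E : V → V → Prop) (η ν : ℝ) (hν : 0 < ν) (hνη : ν ≤ η / 2)
    (hη : η ≤ 1) (hE : Expander E η ν) (hV : 0 < Fintype.card V) (i : ℕ) (hi : 2 ≤ ν * i)
    (hn : 2 * ((i : ℝ) + 1) ≤ ν ^ 2 / 2 * (Fintype.card V : ℝ)) (v : V) :
    ∃ A : Finset (List (V × V)), (∀ T ∈ A, T.length = i + 1 ∧ (vs T).Nodup ∧ AbsL E v T) ∧
      (ν ^ 3 / 4) ^ (i + 1) * (Fintype.card V : ℝ) ^ (2 * (i + 1)) ≤ (A.card : ℝ) := by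
  set n : ℝ := (Fintype.card V : ℝ) with hn_def
  have hn0 : 0 ≤ n := Nat.cast_nonneg _
  have hν1 : ν ≤ 1 := by linarith
  have hW := uset_grow E η ν hν hνη hη hE hV v i hi
  have hex : ∀ w : V, ∃ A : Finset (List (V × V)), (∀ T ∈ A, T.length = i + 1 ∧ (vs T).Nodup ∧
          (∀ x ∈ vs T, x ∉ (∅ : Finset V)) ∧ (∀ p ∈ T, E p.1 p.2) ∧
          T.IsChain (fun p q => E p.1 q.2) ∧
          (∀ q ∈ T.getLast?, E q.1 v) ∧ ∃ u T', T = (u, w) :: T') ∧
        (ν * n / 2) * (ν ^ 3 * n ^ 2 / 4) ^ i ≤ (A.card : ℝ) := by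
    intro w
    refine ca_key E ν hν hν1 v i ∅ ?_ w ?_ (notMem_empty w)
    · rw [card_empty, Nat.cast_zero, zero_add]
      exact hn
    · rw [hW]
      exact mem_univ w
  choose A hA hAc using hex
  refine ⟨(univ.filter fun w => E v w).biUnion A, ?_, ?_⟩
  · intro T hT
    rw [mem_biUnion] at hT
    obtain ⟨w, hw, hT⟩ := hT
    obtain ⟨h1, h2, h3, h4, h5, h6, u, T', e⟩ := hA w T hT
    refine ⟨h1, h2, h4, h5, h6, ?_⟩
    intro p hp
    rw [e, List.head?_cons, Option.mem_some_iff] at hp
    rw [← hp]
    exact (mem_filter.1 hw).2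
  · have hdis : ∀ w1 ∈ univ.filter fun w => E v w, ∀ w2 ∈ univ.filter fun w => E v w, w1 ≠ w2 →
        Disjoint (A w1) (A w2) := by
      intro w1 _ w2 _ hne
      rw [Finset.disjoint_left]
      intro T hT1 hT2
      obtain ⟨_, _, _, _, _, _, u1, T1', e1⟩ := hA w1 T hT1
      obtain ⟨_, _, _, _, _, _, u2, T2', e2⟩ := hA w2 T hT2
      rw [e1] at e2
      have e3 : (u1, w1) = (u2, w2) := (List.cons.inj e2).1
      exact hne (Prod.mk.inj e3).2
    rw [card_biUnion hdis]
    push_cast
    have h2 := sum_le_sum (s := univ.filter fun w => E v w) fun w _ => hAc w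
    rw [sum_const, nsmul_eq_mul] at h2
    refine le_trans ?_ h2
    have h4 : ν * n ≤ ((univ.filter fun w => E v w).card : ℝ) := by
      have h5 := hE.1 v
      have h6 : ν * n ≤ η * n := mul_le_mul_of_nonneg_right (by linarith) hn0
      exact h6.trans h5
    have h7 : (0 : ℝ) ≤ ν * n / 2 * (ν ^ 3 * n ^ 2 / 4) ^ i := by positivity
    refine le_trans ?_ (mul_le_mul_of_nonneg_right h4 h7)
    have h8 : (ν ^ 3 / 4) ^ (i + 1) * n ^ (2 * (i + 1)) =
        (ν ^ 3 * n ^ 2 / 4) * (ν ^ 3 * n ^ 2 / 4) ^ i := by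
      rw [pow_mul, ← mul_pow, ← pow_succ']
      congr 1
      ring
    rw [h8, ← mul_assoc]
    refine mul_le_mul_of_nonneg_right ?_ (by positivity)
    have h9 : 0 ≤ ν ^ 2 * n ^ 2 := by positivity
    nlinarith [mul_nonneg h9 (sub_nonneg.2 hν1)]

end HX
end

section

set_option autoImplicit false

namespace HX

open Finset Classical

/-- JOB HX-Fo2a (medium; uses `near_matching`, `lists_of_succ`). From `r` disjoint 1-factors `f j` of `U` and a
colouring with `K` colours that splits everything evenly (error `e`) we get a spanning linear forest of `U`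
with few paths.

Proof. For a colour `k` with `k + 1 < K` let `X_k = {x ∈ U : c x = k}`, `Y = X_{k+1}`,
`H x y := ∃ j < r, f j x = y`.  As `f i x ≠ f j x` for `i ≠ j`, `dOut H x Y` is the number of `j < r` with
`c (f j x) = k + 1` (all `f j x ∈ U`), so it is at least `a := r / K - e > 0`; and
`dIn H y X_k ≤ b := r / K + e` by `h2`.  `near_matching` gives `X_k' ⊆ X_k` and `f_k` with
`|X_k'| + 1 ≥ |X_k| a / b`, so `|X_k| - |X_k'| ≤ 1 + |X_k| (1 - a/b) = 1 + |X_k| 2 e / b ≤ 1 + |X_k| 2 e K / r`.
Let `X` be the union of the `X_k'` (`k + 1 < K`), `s x := f_{c x} x`.  `s` maps `X_k'` injectively into the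
colour class `k + 1`, so `s` is injective on `X`, and the rank `rk x = (c x : ℕ)` increases.  Apply
`lists_of_succ`; the number of lists is `|U| - |X| = |X_{K-1}| + ∑_{k+1<K} (|X_k| - |X_k'|)`
`≤ |U| / K + e + K + |U| 2 e K / r`. -/
theorem forest_aux {V : Type} [Fintype V] (E : V → V → Prop) (U : Finset V) (r K : ℕ) (hK : 0 < K)
    (hr : 0 < r) (f : ℕ → V → V) (hf : ∀ j < r, ∀ x ∈ U, f j x ∈ U ∧ E x (f j x))
    (hf3 : ∀ i < r, ∀ j < r, i ≠ j → ∀ x ∈ U, f i x ≠ f j x)
    (c : V → Fin K) (e : ℝ) (he : 0 ≤ e) (her : e < (r : ℝ) / K)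
    (h1 : ∀ x ∈ U, ∀ k : Fin K,
      (r : ℝ) / K - e ≤ (((range r).filter fun j => c (f j x) = k).card : ℝ))
    (h2 : ∀ y ∈ U, ∀ k : Fin K,
      ((U.filter fun x => c x = k ∧ ∃ j < r, f j x = y).card : ℝ) ≤ (r : ℝ) / K + e)
    (h3 : ∀ k : Fin K, ((U.filter fun x => c x = k).card : ℝ) ≤ (U.card : ℝ) / K + e) :
    ∃ L : List (List V), (∀ l ∈ L, l ≠ [] ∧ l.IsChain E) ∧ L.flatten.Nodup ∧
      (∀ v, v ∈ L.flatten ↔ v ∈ U) ∧
      (L.length : ℝ) ≤ (U.card : ℝ) / K + e + K + (U.card : ℝ) * (2 * e * K / r) := by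
  have hKr : (0 : ℝ) < K := by exact_mod_cast hK
  have hrr : (0 : ℝ) < r := by exact_mod_cast hr
  have hrK : (0 : ℝ) < (r : ℝ) / K := div_pos hrr hKr
  set a : ℝ := (r : ℝ) / K - e with ha
  set b : ℝ := (r : ℝ) / K + e with hb
  have ha0 : 0 ≤ a := by linarith
  have hb0 : 0 < b := by linarith
  have hab : a ≤ b := by linarith
  obtain ⟨H, hH⟩ : ∃ H : V → V → Prop, ∀ x y, H x y ↔ ∃ j < r, f j x = y :=
    ⟨_, fun _ _ => Iff.rfl⟩
  let cls : Fin K → Finset V := fun k => U.filter fun x => c x = k
  have hclsU : ∀ k, cls k ⊆ U := fun k => filter_subset _ _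
  have hcls : ∀ k x, x ∈ cls k ↔ x ∈ U ∧ c x = k := fun k x => mem_filter
  have key : ∀ k : Fin K, ∃ (X' : Finset V) (g : V → V), X' ⊆ cls k ∧
      (((k : ℕ) + 1 < K) → ((cls k).card : ℝ) * a ≤ ((X'.card : ℝ) + 1) * b) ∧
      Set.InjOn g (X' : Set V) ∧
      ∀ x ∈ X', g x ∈ U ∧ (c (g x) : ℕ) = (k : ℕ) + 1 ∧ H x (g x) := by
    intro k
    by_cases hk : (k : ℕ) + 1 < K
    · obtain ⟨X', g, hg1, hg2, hg3, hg4⟩ := near_matching H (cls k) (cls ⟨(k : ℕ) + 1, hk⟩) a b
        ha0 hb0 hab (by
          intro x hx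
          have hxU := ((hcls k x).1 hx).1
          refine (h1 x hxU ⟨(k : ℕ) + 1, hk⟩).trans ?_
          unfold dOut
          have h4 : ((range r).filter fun j => c (f j x) = ⟨(k : ℕ) + 1, hk⟩).card ≤
              ((cls ⟨(k : ℕ) + 1, hk⟩).filter fun y => H x y).card := by
            refine card_le_card_of_injOn (fun j => f j x) ?_ ?_
            · intro j hj
              have hj' : j ∈ (range r).filter fun j => c (f j x) = ⟨(k : ℕ) + 1, hk⟩ := hj
              rw [mem_filter, mem_range] at hj'
              refine mem_coe.2 (mem_filter.2 ⟨(hcls _ _).2 ⟨(hf j hj'.1 x hxU).1, hj'.2⟩, ?_⟩)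
              exact (hH _ _).2 ⟨j, hj'.1, rfl⟩
            · intro i hi j hj hij
              have hi' : i ∈ (range r).filter fun j => c (f j x) = ⟨(k : ℕ) + 1, hk⟩ := hi
              have hj' : j ∈ (range r).filter fun j => c (f j x) = ⟨(k : ℕ) + 1, hk⟩ := hj
              rw [mem_filter, mem_range] at hi' hj'
              by_contra hne
              exact hf3 i hi'.1 j hj'.1 hne x hxU hij
          have h5 := (Nat.cast_le (α := ℝ)).2 h4
          convert h5) (by
          intro y hy
          have hyU := ((hcls _ y).1 hy).1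
          refine le_trans (le_of_eq ?_) (h2 y hyU k)
          unfold dIn
          congr 2
          ext x
          simp only [mem_filter, hcls, hH]
          tauto)
      refine ⟨X', g, hg1, fun _ => hg2, hg3, fun x hx => ?_⟩
      obtain ⟨h4, h5⟩ := hg4 x hx
      obtain ⟨h6, h7⟩ := (hcls _ _).1 h4
      exact ⟨h6, by rw [h7], h5⟩
    · exact ⟨∅, id, empty_subset _, fun h => absurd h hk, by simp, fun x hx =>
        absurd hx (notMem_empty x)⟩
  choose X' g hX1 hX2 hX3 hX4 using key
  set X : Finset V := univ.biUnion X' with hX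
  have hXmem : ∀ x ∈ X, x ∈ X' (c x) := by
    intro x hx
    obtain ⟨k, -, hk⟩ := mem_biUnion.1 hx
    have h4 := ((hcls k x).1 (hX1 k hk)).2
    rwa [h4]
  have hXU : X ⊆ U := by
    intro x hx
    exact hclsU _ (hX1 _ (hXmem x hx))
  obtain ⟨L, hL1, hL2, hL3, hL4⟩ := lists_of_succ E U X hXU (fun x => (c x : ℕ))
    (fun x => g (c x) x) (by
      intro x hx y hy hxy
      have hx' := hXmem x hx
      have hy' := hXmem y hy
      have hxy' : g (c x) x = g (c y) y := hxy
      have h4 := (hX4 _ x hx').2.1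
      have h5 := (hX4 _ y hy').2.1
      rw [hxy', h5] at h4
      have h6 : c x = c y := Fin.ext (by omega)
      rw [h6] at hx' hxy'
      exact hX3 _ hx' hy' hxy') (by
      intro x hx
      obtain ⟨h4, h5, h6'⟩ := hX4 _ x (hXmem x hx)
      obtain ⟨j, hj, h6⟩ := (hH _ _).1 h6'
      refine ⟨h4, ?_, ?_⟩
      · show (c x : ℕ) < (c (g (c x) x) : ℕ)
        omega
      · show E x (g (c x) x)
        rw [← h6]
        exact (hf j hj x (hXU hx)).2)
  refine ⟨L, hL1, hL2, hL3, ?_⟩
  have hXcard : X.card = ∑ k, (X' k).card := by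
    rw [hX]
    refine card_biUnion fun i _ j _ hij => ?_
    show Disjoint (X' i) (X' j)
    rw [disjoint_left]
    intro x hx hx'
    exact hij (((hcls i x).1 (hX1 i hx)).2.symm.trans ((hcls j x).1 (hX1 j hx')).2)
  have hUcard : U.card = ∑ k, (cls k).card :=
    card_eq_sum_card_fiberwise (f := c) (t := univ) fun x _ => mem_coe.2 (mem_univ _)
  have hLlen : (L.length : ℝ) = ∑ k, (((cls k).card : ℝ) - ((X' k).card : ℝ)) := by
    rw [sum_sub_distrib]
    have h4 : (L.length : ℝ) + X.card = U.card := by exact_mod_cast hL4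
    rw [hXcard, hUcard] at h4
    push_cast at h4
    linarith
  have hlast : K - 1 < K := by omega
  have hbound : ∀ k : Fin K, ((cls k).card : ℝ) - ((X' k).card : ℝ) ≤
      (if k = ⟨K - 1, hlast⟩ then (U.card : ℝ) / K + e else 0) +
        (1 + ((cls k).card : ℝ) * (2 * e * K / r)) := by
    intro k
    have hcr : (0 : ℝ) ≤ ((cls k).card : ℝ) * (2 * e * K / r) := by positivity
    split_ifs with hk
    · have h4 := h3 k
      have h5 : (0 : ℝ) ≤ ((X' k).card : ℝ) := Nat.cast_nonneg _
      have h6 : ((cls k).card : ℝ) ≤ (U.card : ℝ) / K + e := h4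
      linarith
    · have hk1 : (k : ℕ) + 1 < K := by
        have h4 := k.2
        have h5 : (k : ℕ) ≠ K - 1 := fun h => hk (Fin.ext h)
        omega
      have h4 := hX2 k hk1
      have h5 : ((cls k).card : ℝ) * b - ((cls k).card : ℝ) * (2 * e) ≤
          (((X' k).card : ℝ) + 1) * b := by
        have : a = b - 2 * e := by rw [ha, hb]; ring
        rw [this] at h4
        linarith
      have h6 : ((cls k).card : ℝ) * (2 * e) ≤ ((cls k).card : ℝ) * (2 * e * K / r) * b := by
        have h7 : (2 * e) ≤ (2 * e * K / r) * b := by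
          have h8 : (2 * e * K / r) * ((r : ℝ) / K) = 2 * e := by
            field_simp
          have h9 : (2 * e * K / r) * ((r : ℝ) / K) ≤ (2 * e * K / r) * b :=
            mul_le_mul_of_nonneg_left (by linarith) (by positivity)
          linarith
        have h8 := mul_le_mul_of_nonneg_left h7 (Nat.cast_nonneg (α := ℝ) (cls k).card)
        linarith
      have h7 : (((cls k).card : ℝ) - ((X' k).card : ℝ)) * b ≤
          (1 + ((cls k).card : ℝ) * (2 * e * K / r)) * b := by linarith
      have h8 := le_of_mul_le_mul_right h7 hb0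
      linarith
  rw [hLlen]
  refine (sum_le_sum fun k _ => hbound k).trans ?_
  rw [sum_add_distrib, sum_add_distrib, sum_ite_eq' univ, if_pos (mem_univ _), sum_const,
    card_univ, Fintype.card_fin, nsmul_eq_mul, mul_one, ← sum_mul]
  have h4 : ∑ k, ((cls k).card : ℝ) = (U.card : ℝ) := by
    rw [hUcard]
    push_cast
    rfl
  rw [h4]
  linarith

end HX
end
end

section

section

set_option autoImplicit false

namespace HX

open Finset Classical

private theorem gadget_vs_cons {V : Type} (p : V × V) (T : List (V × V)) :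
    vs (p :: T) = p.1 :: p.2 :: vs T := by
  simp [vs]

private theorem gadget_aux {V : Type} [Fintype V] (E : V → V → Prop) (c : ℝ) (J : ℕ) (θ : ℝ)
    (hR : Res E c J θ univ) : ∀ (n : ℕ) (p : V × V) (T₀ : List (V × V)) (e : V × V) (F : Finset V),
    T₀.length = 2 * n → (p :: T₀).getLast? = some e → (∀ q ∈ p :: T₀, E q.1 q.2) →
    (vs (p :: T₀)).Nodup → (∀ x ∈ vs (p :: T₀), x ∈ F) →
    (F.card : ℝ) + (2 * (n : ℝ) + 1) * ((J : ℝ) + 1) ≤ θ →
    ∃ X O D : List V, (p.1 :: X).IsChain E ∧ (p.1 :: X).Nodup ∧ X.getLast? = some e.2 ∧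
      X.Perm (O ++ D) ∧ (∀ x ∈ X, x ∈ vs (p :: T₀) ∨ x ∉ F) ∧
      X.length + 1 ≤ (2 * n + 1) * (J + 3) ∧
      ((p :: T₀).IsChain (fun p q => E p.1 q.2) → (p.1 :: O).IsChain E ∧
        (p.1 :: O).getLast? = some e.1 ∧ D.IsChain E ∧ D.head? = some p.2 ∧
        D.getLast? = some e.2) := by
  intro n
  induction n with
  | zero =>
    intro p T₀ e F hlen hlast hT hnd hTF hF
    have h0 : T₀ = [] := List.length_eq_zero_iff.1 (by simpa using hlen)
    subst h0
    simp only [List.getLast?_singleton, Option.some.injEq] at hlast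
    subst hlast
    rw [gadget_vs_cons] at hnd
    refine ⟨[p.2], [], [p.2], ?_, ?_, rfl, List.Perm.refl _, ?_, ?_, ?_⟩
    · simp only [List.isChain_cons_cons, List.isChain_singleton, and_true]
      exact hT p (by simp)
    · rw [List.nodup_cons] at hnd ⊢
      refine ⟨?_, by simp⟩
      intro h
      exact hnd.1 (by simp only [List.mem_cons, List.not_mem_nil, or_false] at h; simp [h])
    · intro x hx
      left
      rw [gadget_vs_cons]
      simp only [List.mem_cons, List.not_mem_nil, or_false] at hx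
      simp [hx]
    · simp only [List.length_cons, List.length_nil]
      omega
    · intro _
      refine ⟨by simp, by simp, by simp, by simp, by simp⟩
  | succ n ih =>
    intro p T₀ e F hlen hlast hT hnd hTF hF
    match T₀, hlen with
    | [], hlen => simp at hlen
    | [_], hlen => simp only [List.length_cons, List.length_nil] at hlen; omega
    | q :: r :: T₂, hlen =>
    have hlen2 : T₂.length = 2 * n := by
      simp only [List.length_cons] at hlen
      omega
    have hE : E p.1 p.2 := hT p (by simp)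
    have hEq : E q.1 q.2 := hT q (by simp)
    rw [gadget_vs_cons, gadget_vs_cons] at hnd
    have hp1 : p.1 ∈ F := hTF _ (by simp [gadget_vs_cons])
    have hp2 : p.2 ∈ F := hTF _ (by simp [gadget_vs_cons])
    have hq1 : q.1 ∈ F := hTF _ (by simp [gadget_vs_cons])
    have hq2 : q.2 ∈ F := hTF _ (by simp [gadget_vs_cons])
    have hrF : ∀ x ∈ vs (r :: T₂), x ∈ F := fun x hx => hTF _ (by
      rw [gadget_vs_cons, gadget_vs_cons]
      simp [hx])
    have hJ : (0 : ℝ) ≤ J := Nat.cast_nonneg J
    have hn0 : (0 : ℝ) ≤ n := Nat.cast_nonneg n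
    push_cast at hF
    have hcard : ∀ G : Finset V, (G.filter (· ∈ (univ : Finset V))).card = G.card := by
      intro G
      congr 1
      ext x
      simp
    obtain ⟨m1, hm1l, hm1n, hm1F, hm1c⟩ := connect E c J θ univ F hR (by
      rw [hcard]
      nlinarith) p.2 q.1
    obtain ⟨m2, hm2l, hm2n, hm2F, hm2c⟩ := connect E c J θ univ (F ∪ m1.toFinset) hR (by
      rw [hcard]
      have h1 : ((F ∪ m1.toFinset).card : ℝ) ≤ F.card + (J + 1) := by
        have h2 := Finset.card_union_le F m1.toFinset
        have h3 := List.toFinset_card_le m1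
        rw [hm1l] at h3
        have h4 : (F ∪ m1.toFinset).card ≤ F.card + (J + 1) := by omega
        exact_mod_cast h4
      nlinarith) q.2 r.1
    have hF2 : ((F ∪ m1.toFinset ∪ m2.toFinset).card : ℝ) ≤ F.card + 2 * ((J : ℝ) + 1) := by
      have h2 := Finset.card_union_le F m1.toFinset
      have h2' := Finset.card_union_le (F ∪ m1.toFinset) m2.toFinset
      have h3 := List.toFinset_card_le m1
      have h3' := List.toFinset_card_le m2
      rw [hm1l] at h3
      rw [hm2l] at h3'
      have h4 : (F ∪ m1.toFinset ∪ m2.toFinset).card ≤ F.card + 2 * (J + 1) := by omega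
      exact_mod_cast h4
    obtain ⟨X', O', D', hXc, hXn, hXl, hXp, hXF, hXlen, hXe⟩ := ih r T₂ e
      (F ∪ m1.toFinset ∪ m2.toFinset) hlen2 (by simpa using hlast)
      (fun s hs => hT s (by simp only [List.mem_cons] at hs ⊢; tauto))
      (by
        simp only [List.nodup_cons] at hnd
        exact hnd.2.2.2.2)
      (fun x hx => by simp [hrF x hx]) (by nlinarith)
    -- facts on the second half
    have hYF : ∀ x ∈ r.1 :: X', x ∈ vs (r :: T₂) ∨ (x ∉ F ∧ x ∉ m1 ∧ x ∉ m2) := by
      intro x hx
      rcases List.mem_cons.1 hx with h | h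
      · left
        rw [h]
        simp [gadget_vs_cons]
      · rcases hXF x h with h1 | h1
        · exact Or.inl h1
        · right
          simp only [Finset.mem_union, List.mem_toFinset, not_or] at h1
          exact ⟨h1.1.1, h1.1.2, h1.2⟩
    have hm1F' : ∀ z ∈ m1, z ∉ F := fun z hz => (hm1F z hz).2
    have hm2F' : ∀ z ∈ m2, z ∉ F ∧ z ∉ m1 := fun z hz => by
      have := (hm2F z hz).2
      simp only [Finset.mem_union, List.mem_toFinset, not_or] at this
      exact this
    have hnp : p.1 ≠ p.2 ∧ p.1 ≠ q.1 ∧ p.1 ≠ q.2 ∧ p.2 ≠ q.1 ∧ p.2 ≠ q.2 ∧ q.1 ≠ q.2 ∧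
        p.1 ∉ vs (r :: T₂) ∧ p.2 ∉ vs (r :: T₂) ∧ q.1 ∉ vs (r :: T₂) ∧ q.2 ∉ vs (r :: T₂) := by
      simp only [List.nodup_cons, List.mem_cons, not_or] at hnd
      tauto
    have hYn : ∀ x ∈ F, x ∉ vs (r :: T₂) → x ∉ r.1 :: X' := by
      intro x hx hx2 hx3
      rcases hYF x hx3 with h | h
      · exact hx2 h
      · exact h.1 hx
    refine ⟨p.2 :: (m1 ++ (q.1 :: q.2 :: (m2 ++ (r.1 :: X')))), q.2 :: (m2 ++ (r.1 :: O')),
      p.2 :: (m1 ++ (q.1 :: D')), ?_, ?_, ?_, ?_, ?_, ?_, ?_⟩
    · rw [List.isChain_cons_cons]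
      refine ⟨hE, ?_⟩
      rw [← List.cons_append, List.isChain_split]
      refine ⟨by simpa using hm1c, ?_⟩
      rw [List.isChain_cons_cons]
      refine ⟨hEq, ?_⟩
      rw [← List.cons_append, List.isChain_split]
      exact ⟨by simpa using hm2c, hXc⟩
    · have hp1Y := hYn _ hp1 hnp.2.2.2.2.2.2.1
      have hp2Y := hYn _ hp2 hnp.2.2.2.2.2.2.2.1
      have hq1Y := hYn _ hq1 hnp.2.2.2.2.2.2.2.2.1
      have hq2Y := hYn _ hq2 hnp.2.2.2.2.2.2.2.2.2
      have hin1 : ∀ x ∈ F, x ∉ m1 := fun x hx h => hm1F' x h hx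
      have hin2 : ∀ x ∈ F, x ∉ m2 := fun x hx h => (hm2F' x h).1 hx
      rw [List.nodup_cons, List.nodup_cons, List.nodup_append, List.nodup_cons, List.nodup_cons,
        List.nodup_append]
      refine ⟨?_, ?_, hm1n, ⟨?_, ?_, hm2n, hXn, ?_⟩, ?_⟩
      · intro h
        rw [List.mem_cons, List.mem_append, List.mem_cons, List.mem_cons, List.mem_append] at h
        rcases h with h | h | h | h | h | h
        · exact hnp.1 h
        · exact hin1 _ hp1 h
        · exact hnp.2.1 h
        · exact hnp.2.2.1 h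
        · exact hin2 _ hp1 h
        · exact hp1Y h
      · intro h
        rw [List.mem_append, List.mem_cons, List.mem_cons, List.mem_append] at h
        rcases h with h | h | h | h | h
        · exact hin1 _ hp2 h
        · exact hnp.2.2.2.1 h
        · exact hnp.2.2.2.2.1 h
        · exact hin2 _ hp2 h
        · exact hp2Y h
      · intro h
        rw [List.mem_cons, List.mem_append] at h
        rcases h with h | h | h
        · exact hnp.2.2.2.2.2.1 h
        · exact hin2 _ hq1 h
        · exact hq1Y h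
      · intro h
        rw [List.mem_append] at h
        rcases h with h | h
        · exact hin2 _ hq2 h
        · exact hq2Y h
      · intro a ha b hb hab
        subst hab
        rcases hYF a hb with h | h
        · exact (hm2F' a ha).1 (hrF a h)
        · exact h.2.2 ha
      · intro a ha b hb hab
        subst hab
        rw [List.mem_cons, List.mem_cons, List.mem_append] at hb
        rcases hb with h | h | h | h
        · exact hm1F' a ha (h ▸ hq1)
        · exact hm1F' a ha (h ▸ hq2)
        · exact (hm2F' a h).2 ha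
        · rcases hYF a h with h' | h'
          · exact hm1F' a ha (hrF a h')
          · exact h'.2.1 ha
    · have h1 : (r.1 :: X').getLast? = some e.2 := by
        rw [List.getLast?_cons, hXl]
        rfl
      rw [List.getLast?_cons, List.getLast?_append, List.getLast?_cons_cons, List.getLast?_cons,
        List.getLast?_append, h1]
      simp
    · rw [List.perm_iff_count]
      intro a
      have h1 := hXp.count_eq a
      rw [List.count_append] at h1
      simp only [List.count_cons, List.count_append]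
      omega
    · intro x hx
      rw [gadget_vs_cons, gadget_vs_cons]
      rw [List.mem_cons, List.mem_append, List.mem_cons, List.mem_cons, List.mem_append] at hx
      rcases hx with h | h | h | h | h | h
      · left; simp [h]
      · right; exact hm1F' x h
      · left; simp [h]
      · left; simp [h]
      · right; exact (hm2F' x h).1
      · rcases hYF x h with h' | h'
        · left; simp [h']
        · right; exact h'.1
    · simp only [List.length_cons, List.length_append, hm1l, hm2l]
      have : (2 * (n + 1) + 1) * (J + 3) = (2 * n + 1) * (J + 3) + 2 * (J + 3) := by ring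
      rw [this]
      omega
    · intro hch
      rw [List.isChain_cons_cons, List.isChain_cons_cons] at hch
      obtain ⟨h1, h2, h3⟩ := hch
      obtain ⟨hO, hOl, hD, hDh, hDl⟩ := hXe h3
      refine ⟨?_, ?_, ?_, rfl, ?_⟩
      · rw [List.isChain_cons_cons]
        refine ⟨h1, ?_⟩
        rw [← List.cons_append, List.isChain_split]
        exact ⟨by simpa using hm2c, hO⟩
      · rw [List.getLast?_cons_cons, List.getLast?_cons, List.getLast?_append, hOl]
        simp
      · rw [← List.cons_append, List.isChain_split]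
        refine ⟨by simpa using hm1c, ?_⟩
        rw [List.isChain_cons]
        refine ⟨?_, hD⟩
        intro y hy
        rw [hDh] at hy
        simp only [Option.mem_def, Option.some.injEq] at hy
        rw [← hy]
        exact h2
      · rw [List.getLast?_cons, List.getLast?_append, List.getLast?_cons, hDl]
        simp

/-- JOB HX-Ga1 (medium; uses `connect`). The absorbing path of one list of arcs of odd length.

Proof. Inner statement, by induction on the odd length (two elements at a time), for `T = p :: _`: there are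
lists `X, O, D` with
(a) `(p.1 :: X).IsChain E`, the last element of `X` is `(last T).2`;
(b) `(p.1 :: X).Nodup`, `X.Perm (O ++ D)`;
(c) every `x ∈ X` is in `vs T` or not in `F`; every `x ∈ vs T` is in `p.1 :: X`;
(d) `(p.1 :: X).length ≤ T.length * (J + 3)` and at most `T.length * (J+1)` elements of `X` are not in `F`;
(e) if `T.IsChain (fun p q => E p.1 q.2)` then `(p.1 :: O).IsChain E` with last element `(last T).1`, and
`D.IsChain E` with first element `p.2` and last element `(last T).2`.
* `T = [p]`: `X = [p.2]`, `O = []`, `D = [p.2]`.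
* `T = p :: q :: T'`, `T' = r :: _` of odd length: let `X', O', D'` be given for `T'`.  `connect` (with reservoir
  `univ`) from `p.2` to `q.1` avoiding `F ∪ X'`: `m1`; from `q.2` to `r.1` avoiding `F ∪ X' ∪ m1`: `m2`.  Take
  `X = p.2 :: m1 ++ [q.1] ++ q.2 :: m2 ++ [r.1] ++ X'`, `O = q.2 :: m2 ++ [r.1] ++ O'`,
  `D = p.2 :: m1 ++ [q.1] ++ D'`.  The new arcs used by `X`: `E p.1 p.2`, `E q.1 q.2`; by `O`: `E p.1 q.2`; by `D`:
  `E q.1 r.2` (first element of `D'` is `r.2`): the last two by the chain condition on `T`.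
  (It may be easier to keep `F` fixed and carry the set of the used vertices; sizes:
  `|F| + T.length (J+1) ≤ θ` suffices for all connections.)
Finally `P = p.1 :: X`, and if `AbsL E v T`, `v ∉ P`: `P' = p.1 :: O ++ v :: D`; the arcs `(last T).1 → v` and
`v → p.2` exist by `AbsL`. -/
theorem gadget {V : Type} [Fintype V] (E : V → V → Prop) (c : ℝ) (J : ℕ) (θ : ℝ)
    (hR : Res E c J θ univ) (T : List (V × V)) (hodd : Odd T.length) (hT : ∀ p ∈ T, E p.1 p.2)
    (hnd : (vs T).Nodup) (F : Finset V) (hTF : ∀ x ∈ vs T, x ∈ F)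
    (hF : (F.card : ℝ) + (T.length : ℝ) * ((J : ℝ) + 1) ≤ θ) :
    ∃ P : List V, P ≠ [] ∧ P.IsChain E ∧ P.Nodup ∧ (∀ x ∈ P, x ∈ vs T ∨ x ∉ F) ∧
      P.length ≤ T.length * (J + 3) ∧
      ∀ v, AbsL E v T → v ∉ P → ∃ P' : List V, P'.Nodup ∧ P'.IsChain E ∧ P'.head? = P.head? ∧
        P'.getLast? = P.getLast? ∧ ∀ x, x ∈ P' ↔ x ∈ P ∨ x = v := by
  obtain ⟨n, hn⟩ := hodd
  cases T with
  | nil => simp at hn
  | cons p T₀ =>
    have hlen : T₀.length = 2 * n := by
      simp only [List.length_cons] at hn
      omega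
    obtain ⟨e, he⟩ : ∃ e, (p :: T₀).getLast? = some e := by
      rw [List.getLast?_cons]
      exact ⟨_, rfl⟩
    rw [hn] at hF
    obtain ⟨X, O, D, hXc, hXn, hXl, hXp, hXF, hXlen, hXe⟩ := gadget_aux E c J θ hR n p T₀ e F hlen he
      hT hnd hTF (by push_cast at hF; exact hF)
    refine ⟨p.1 :: X, by simp, hXc, hXn, ?_, ?_, ?_⟩
    · intro x hx
      rcases List.mem_cons.1 hx with h | h
      · left
        rw [gadget_vs_cons]
        simp [h]
      · exact hXF x h
    · rw [hn]
      simpa using hXlen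
    · intro v hv hvP
      obtain ⟨h1, h2, h3, h4⟩ := hv
      obtain ⟨hO, hOl, hD, hDh, hDl⟩ := hXe h2
      have hperm : (p.1 :: X).Perm (p.1 :: O ++ D) := by
        rw [List.cons_append]
        exact hXp.cons _
      refine ⟨(p.1 :: O) ++ (v :: D), ?_, ?_, ?_, ?_, ?_⟩
      · have h5 : (v :: (p.1 :: O ++ D)).Nodup := by
          rw [List.nodup_cons]
          exact ⟨fun h => hvP (hperm.mem_iff.2 h), hperm.nodup_iff.1 hXn⟩
        exact (List.perm_middle.nodup_iff).2 h5
      · rw [List.isChain_append]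
        refine ⟨hO, ?_, ?_⟩
        · rw [List.isChain_cons]
          refine ⟨?_, hD⟩
          intro y hy
          rw [hDh] at hy
          simp only [Option.mem_def, Option.some.injEq] at hy
          rw [← hy]
          exact h4 p (by simp)
        · intro x hx y hy
          rw [hOl] at hx
          simp only [Option.mem_def, Option.some.injEq] at hx
          simp only [List.head?_cons, Option.mem_def, Option.some.injEq] at hy
          rw [← hx, ← hy]
          exact h3 e (by rw [he]; rfl)
      · simp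
      · have h6 : (p.1 :: X).getLast? = some e.2 := by
          rw [List.getLast?_cons, hXl]
          rfl
        rw [h6, List.getLast?_append, List.getLast?_cons, hDl]
        simp
      · intro x
        have h5 := hperm.mem_iff (a := x)
        rw [List.mem_append] at h5
        rw [List.mem_append, List.mem_cons (a := x) (b := v), h5]
        tauto

end HX
end

section

set_option autoImplicit false

namespace HX

open Finset Classical

private lemma ga2_chain {V : Type} {E : V → V → Prop} {A B m : List V} (hA : A.IsChain E)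
    (hB : B.IsChain E) {x y : V} (hx : A.getLast? = some x) (hy : B.head? = some y)
    (hm : List.IsChain E (x :: (m ++ [y]))) : (A ++ (m ++ B)).IsChain E := by
  cases m with
  | nil =>
    rw [List.nil_append, List.isChain_append]
    refine ⟨hA, hB, ?_⟩
    intro a ha b hb
    rw [hx, Option.mem_some_iff] at ha
    rw [hy, Option.mem_some_iff] at hb
    subst ha hb
    simpa using hm
  | cons a m =>
    rw [List.cons_append, List.isChain_cons_cons] at hm
    have h2 := hm.2
    rw [← List.cons_append, List.isChain_append] at h2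
    rw [List.isChain_append, List.isChain_append]
    refine ⟨hA, ⟨h2.1, hB, ?_⟩, ?_⟩
    · intro b hb d hd
      rw [hy, Option.mem_some_iff] at hd
      subst hd
      exact h2.2.2 b hb _ (by simp)
    · intro b hb d hd
      rw [hx, Option.mem_some_iff] at hb
      subst hb
      simp only [List.cons_append, List.head?_cons, Option.mem_some_iff] at hd
      subst hd
      exact hm.1

private lemma ga2_nodup {V : Type} {A B m : List V} (hA : A.Nodup) (hB : B.Nodup) (hm : m.Nodup)
    (h1 : ∀ x ∈ m, x ∉ A ∧ x ∉ B) (h2 : ∀ x ∈ A, x ∉ B) : (A ++ (m ++ B)).Nodup := by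
  rw [List.nodup_append', List.nodup_append']
  refine ⟨hA, ⟨hm, hB, ?_⟩, ?_⟩
  · intro x hx hx'
    exact (h1 x hx).2 hx'
  · intro x hx hx'
    rcases List.mem_append.1 hx' with h | h
    · exact (h1 x h).1 hx
    · exact h2 x hx h

/-- JOB HX-Ga2 (medium; uses `gadget`, `connect`). Many gadgets in one path; each may absorb one vertex.

Proof. Induction on `G`.  `G = [T]`: `gadget`; `os = [o]`, and `o = none` means `P' = P`.
`G = T :: G'`, `G' ≠ []`: let `P1` be given for `G'` (same `F`); `gadget` for `T` with the forbidden set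
`F ∪ P1.toFinset` (`vs T ⊆ F`) gives `P0`; `P0` and `P1` are disjoint: an element of `P0` is in `vs T` or is not in
`F ∪ P1`; an element of `P1` is in `G'.flatMap vs` or not in `F`, and `vs T ⊆ F` is disjoint from `G'.flatMap vs`.
`connect` from the last element of `P0` to the first element of `P1`, avoiding `F ∪ P1 ∪ P0`, gives `m` (length
`J + 1`).  `P = P0 ++ m ++ P1`; lengths: `t (J+3) + (J+1) + G'.length ((t+1)(J+3)) ≤ G.length ((t+1)(J+3))`, so
all forbidden sets have size at most `|F| + G'.length ((t+1)(J+3)) + t (J+3)` and `hF` suffices.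
For `os = o :: os'` take `P' = P0' ++ m ++ P1'` with `P1'` from the induction hypothesis and `P0' = P0` if
`o = none`, resp. the result of `gadget` for `v` if `o = some v` (`v ∉ P`).  The ends of `P0', P1'` are those of
`P0, P1`. -/
theorem gadgets_join {V : Type} [Fintype V] (E : V → V → Prop) (c : ℝ) (J : ℕ) (θ : ℝ)
    (hR : Res E c J θ univ) (t : ℕ) (ht : Odd t) (G : List (List (V × V))) (hG : G ≠ [])
    (hGt : ∀ T ∈ G, T.length = t ∧ ∀ p ∈ T, E p.1 p.2) (hnd : (G.flatMap vs).Nodup) (F : Finset V)
    (hF1 : ∀ x ∈ G.flatMap vs, x ∈ F)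
    (hF : (F.card : ℝ) + (G.length : ℝ) * (((t : ℝ) + 1) * ((J : ℝ) + 3)) ≤ θ) :
    ∃ P : List V, P ≠ [] ∧ P.IsChain E ∧ P.Nodup ∧ (∀ x ∈ P, x ∈ G.flatMap vs ∨ x ∉ F) ∧
      P.length ≤ G.length * ((t + 1) * (J + 3)) ∧
      ∀ os : List (Option V), List.Forall₂ (fun T o => ∀ v ∈ o, AbsL E v T) G os →
        os.reduceOption.Nodup → (∀ v ∈ os.reduceOption, v ∉ P) →
        ∃ P' : List V, P'.Nodup ∧ P'.IsChain E ∧ P'.head? = P.head? ∧ P'.getLast? = P.getLast? ∧
          ∀ x, x ∈ P' ↔ x ∈ P ∨ x ∈ os.reduceOption := by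
  have key : ∀ G : List (List (V × V)), G ≠ [] →
      (∀ T ∈ G, T.length = t ∧ ∀ p ∈ T, E p.1 p.2) → (G.flatMap vs).Nodup →
      (∀ x ∈ G.flatMap vs, x ∈ F) →
      ((F.card : ℝ) + (G.length : ℝ) * (((t : ℝ) + 1) * ((J : ℝ) + 3)) ≤ θ) →
      ∃ P : List V, P ≠ [] ∧ P.IsChain E ∧ P.Nodup ∧ (∀ x ∈ P, x ∈ G.flatMap vs ∨ x ∉ F) ∧
      P.length ≤ G.length * ((t + 1) * (J + 3)) ∧
      ∀ os : List (Option V), List.Forall₂ (fun T o => ∀ v ∈ o, AbsL E v T) G os →
        os.reduceOption.Nodup → (∀ v ∈ os.reduceOption, v ∉ P) →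
        ∃ P' : List V, P'.Nodup ∧ P'.IsChain E ∧ P'.head? = P.head? ∧ P'.getLast? = P.getLast? ∧
          ∀ x, x ∈ P' ↔ x ∈ P ∨ x ∈ os.reduceOption := by
    intro G
    induction G with
    | nil => intro h; exact absurd rfl h
    | cons T G' ih =>
      intro _ hGt hnd hF1 hF
      have hJ0 : (0 : ℝ) ≤ (J : ℝ) := Nat.cast_nonneg J
      have ht0 : (0 : ℝ) ≤ (t : ℝ) := Nat.cast_nonneg t
      have hTt : T.length = t := (hGt T (by simp)).1
      rw [List.flatMap_cons, List.nodup_append'] at hnd
      have hgad : ∀ F2 : Finset V, (∀ x ∈ vs T, x ∈ F2) →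
          ((F2.card : ℝ) + (t : ℝ) * ((J : ℝ) + 1) ≤ θ) →
          ∃ P : List V, P ≠ [] ∧ P.IsChain E ∧ P.Nodup ∧ (∀ x ∈ P, x ∈ vs T ∨ x ∉ F2) ∧
            P.length ≤ t * (J + 3) ∧
            ∀ o : Option V, (∀ v ∈ o, AbsL E v T) → (∀ v ∈ o, v ∉ P) →
              ∃ P' : List V, P'.Nodup ∧ P'.IsChain E ∧ P'.head? = P.head? ∧
              P'.getLast? = P.getLast? ∧ ∀ x, x ∈ P' ↔ x ∈ P ∨ x ∈ o := by
        intro F2 hTF hF2
        obtain ⟨P, h1, h2, h3, h4, h5, h6⟩ := gadget E c J θ hR T (by rw [hTt]; exact ht)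
          (hGt T (by simp)).2 hnd.1 F2 hTF (by rw [hTt]; exact hF2)
        refine ⟨P, h1, h2, h3, h4, by rw [hTt] at h5; exact h5, ?_⟩
        intro o ho1 ho2
        cases o with
        | none => exact ⟨P, h3, h2, rfl, rfl, fun x => by simp⟩
        | some v =>
          obtain ⟨P', g1, g2, g3, g4, g5⟩ := h6 v (ho1 v rfl) (ho2 v rfl)
          refine ⟨P', g1, g2, g3, g4, fun x => ?_⟩
          rw [g5, Option.mem_some_iff, eq_comm]
      by_cases hG' : G' = []
      · subst hG'
        have hF' : (F.card : ℝ) + (t : ℝ) * ((J : ℝ) + 1) ≤ θ := by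
          have : (t : ℝ) * ((J : ℝ) + 1) ≤ ((t : ℝ) + 1) * ((J : ℝ) + 3) := by nlinarith
          simp only [List.length_cons, List.length_nil] at hF
          push_cast at hF
          linarith
        obtain ⟨P, h1, h2, h3, h4, h5, h6⟩ := hgad F (fun x hx => hF1 x (by simp [hx])) hF'
        refine ⟨P, h1, h2, h3, ?_, ?_, ?_⟩
        · intro x hx
          simpa using h4 x hx
        · refine h5.trans ?_
          simp only [List.length_cons, List.length_nil, zero_add, one_mul]
          exact Nat.mul_le_mul_right _ (Nat.le_succ t)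
        · intro os hos hosn hosP
          obtain ⟨o, os', rfl⟩ : ∃ o os', os = o :: os' := by
            cases hos with
            | cons _ _ => exact ⟨_, _, rfl⟩
          rw [List.forall₂_cons] at hos
          have hos' : os' = [] := by
            have := hos.2.length_eq
            simpa using this.symm
          subst hos'
          have hmem : ∀ x, x ∈ ([o] : List (Option V)).reduceOption ↔ x ∈ o := by
            intro x
            cases o <;> simp [List.reduceOption, eq_comm]
          obtain ⟨P', g1, g2, g3, g4, g5⟩ := h6 o hos.1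
            (fun v hv => hosP v ((hmem v).2 hv))
          exact ⟨P', g1, g2, g3, g4, fun x => by rw [g5, hmem]⟩
      · obtain ⟨P1, i1, i2, i3, i4, i5, i6⟩ := ih hG' (fun T' hT' => hGt T' (by simp [hT']))
          hnd.2.1 (fun x hx => hF1 x (by
            rw [List.flatMap_cons]; exact List.mem_append_right _ hx)) (by
            simp only [List.length_cons] at hF
            push_cast at hF
            have : (0 : ℝ) ≤ ((t : ℝ) + 1) * ((J : ℝ) + 3) := by positivity
            linarith)
        have hP1c : ((P1.toFinset.card : ℕ) : ℝ) ≤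
            (G'.length : ℝ) * (((t : ℝ) + 1) * ((J : ℝ) + 3)) := by
          have h1 : P1.toFinset.card ≤ G'.length * ((t + 1) * (J + 3)) :=
            (List.toFinset_card_le P1).trans i5
          have h2 := (Nat.cast_le (α := ℝ)).2 h1
          push_cast at h2
          exact h2
        simp only [List.length_cons] at hF
        push_cast at hF
        have hF2c : (((F ∪ P1.toFinset).card : ℕ) : ℝ) ≤ (F.card : ℝ) +
            (G'.length : ℝ) * (((t : ℝ) + 1) * ((J : ℝ) + 3)) := by
          have h1 := (Nat.cast_le (α := ℝ)).2 (Finset.card_union_le F P1.toFinset)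
          push_cast at h1
          linarith
        obtain ⟨P0, h1, h2, h3, h4, h5, h6⟩ := hgad (F ∪ P1.toFinset)
          (fun x hx => Finset.mem_union_left _ (hF1 x (by
            rw [List.flatMap_cons]; exact List.mem_append_left _ hx))) (by nlinarith)
        have hP0c : ((P0.toFinset.card : ℕ) : ℝ) ≤ (t : ℝ) * ((J : ℝ) + 3) := by
          have g1 : P0.toFinset.card ≤ t * (J + 3) := (List.toFinset_card_le P0).trans h5
          have g2 := (Nat.cast_le (α := ℝ)).2 g1
          push_cast at g2
          exact g2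
        set F3 : Finset V := (F ∪ P1.toFinset) ∪ P0.toFinset with hF3
        have hF3c : ((F3.card : ℕ) : ℝ) ≤ (F.card : ℝ) +
            (G'.length : ℝ) * (((t : ℝ) + 1) * ((J : ℝ) + 3)) + (t : ℝ) * ((J : ℝ) + 3) := by
          have g1 := (Nat.cast_le (α := ℝ)).2 (Finset.card_union_le (F ∪ P1.toFinset) P0.toFinset)
          push_cast at g1
          linarith
        obtain ⟨x, hx⟩ : ∃ x, P0.getLast? = some x := ⟨_, List.getLast?_eq_getLast_of_ne_nil h1⟩
        obtain ⟨y, hy⟩ : ∃ y, P1.head? = some y := by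
          cases P1 with
          | nil => exact absurd rfl i1
          | cons a l => exact ⟨a, rfl⟩
        obtain ⟨m, m1, m2, m3, m4⟩ := connect E c J θ univ F3 hR (by
          have g1 : ((F3.filter (· ∈ univ)).card : ℝ) ≤ (F3.card : ℝ) :=
            (Nat.cast_le (α := ℝ)).2 (Finset.card_filter_le _ _)
          nlinarith) x y
        have m5 : ∀ z ∈ m, z ∉ F ∧ z ∉ P0 ∧ z ∉ P1 := by
          intro z hz
          have := (m3 z hz).2
          rw [hF3, Finset.mem_union, Finset.mem_union, List.mem_toFinset, List.mem_toFinset] at this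
          push Not at this
          exact ⟨this.1.1, this.2, this.1.2⟩
        have hdis : ∀ z ∈ P0, z ∉ P1 := by
          intro z hz hz1
          rcases h4 z hz with h | h
          · rcases i4 z hz1 with h' | h'
            · exact hnd.2.2 h h'
            · exact h' (hF1 z (by rw [List.flatMap_cons]; exact List.mem_append_left _ h))
          · exact h (Finset.mem_union_right _ (List.mem_toFinset.2 hz1))
        refine ⟨P0 ++ (m ++ P1), ?_, ga2_chain h2 i2 hx hy m4,
          ga2_nodup h3 i3 m2 (fun z hz => (m5 z hz).2) hdis, ?_, ?_, ?_⟩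
        · simp [h1]
        · intro z hz
          rw [List.flatMap_cons, List.mem_append]
          rcases List.mem_append.1 hz with h | h
          · rcases h4 z h with h' | h'
            · exact Or.inl (Or.inl h')
            · exact Or.inr fun hzF => h' (Finset.mem_union_left _ hzF)
          · rcases List.mem_append.1 h with h | h
            · exact Or.inr (m5 z h).1
            · rcases i4 z h with h' | h'
              · exact Or.inl (Or.inr h')
              · exact Or.inr h'
        · rw [List.length_append, List.length_append, m1, List.length_cons]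
          nlinarith
        · intro os hos hosn hosP
          obtain ⟨o, os', rfl⟩ : ∃ o os', os = o :: os' := by
            cases hos with
            | cons _ _ => exact ⟨_, _, rfl⟩
          rw [List.forall₂_cons] at hos
          have hmem : ∀ x, x ∈ (o :: os').reduceOption ↔ x ∈ o ∨ x ∈ os'.reduceOption := by
            intro x
            cases o <;> simp [List.reduceOption, eq_comm]
          have hosn' : os'.reduceOption.Nodup ∧ ∀ v ∈ o, v ∉ os'.reduceOption := by
            cases o with
            | none =>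
              simp only [List.reduceOption_cons_of_none] at hosn
              exact ⟨hosn, by simp⟩
            | some v =>
              simp only [List.reduceOption_cons_of_some, List.nodup_cons] at hosn
              exact ⟨hosn.2, by simpa using hosn.1⟩
          obtain ⟨Q0, g1, g2, g3, g4, g5⟩ := h6 o hos.1 (fun v hv hvP =>
            hosP v ((hmem v).2 (Or.inl hv)) (List.mem_append_left _ hvP))
          obtain ⟨Q1, k1, k2, k3, k4, k5⟩ := i6 os' hos.2 hosn'.1 (fun v hv hvP =>
            hosP v ((hmem v).2 (Or.inr hv))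
              (List.mem_append_right _ (List.mem_append_right _ hvP)))
          have hQ0 : Q0 ≠ [] := by
            rintro rfl
            rw [← g4] at hx
            simp at hx
          have hQ1 : Q1 ≠ [] := by
            rintro rfl
            rw [← k3] at hy
            simp at hy
          refine ⟨Q0 ++ (m ++ Q1), ga2_nodup g1 k1 m2 ?_ ?_,
            ga2_chain g2 k2 (by rw [g4]; exact hx) (by rw [k3]; exact hy) m4, ?_, ?_, ?_⟩
          · intro z hz
            rw [g5, k5]
            have hzP := m5 z hz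
            refine ⟨?_, ?_⟩
            · rintro (h | h)
              · exact hzP.2.1 h
              · exact hosP z ((hmem z).2 (Or.inl h))
                  (List.mem_append_right _ (List.mem_append_left _ hz))
            · rintro (h | h)
              · exact hzP.2.2 h
              · exact hosP z ((hmem z).2 (Or.inr h))
                  (List.mem_append_right _ (List.mem_append_left _ hz))
          · intro z hz
            rw [g5] at hz
            rw [k5]
            rintro (h | h)
            · rcases hz with hz | hz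
              · exact hdis z hz h
              · exact hosP z ((hmem z).2 (Or.inl hz))
                  (List.mem_append_right _ (List.mem_append_right _ h))
            · rcases hz with hz | hz
              · exact hosP z ((hmem z).2 (Or.inr h)) (List.mem_append_left _ hz)
              · exact hosn'.2 z hz h
          · rw [List.head?_append_of_ne_nil _ hQ0, List.head?_append_of_ne_nil _ h1, g3]
          · rw [List.getLast?_append_of_ne_nil, List.getLast?_append_of_ne_nil,
              List.getLast?_append_of_ne_nil, List.getLast?_append_of_ne_nil, k4]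
            all_goals simp [hQ1, i1]
          · intro z
            rw [List.mem_append, List.mem_append, List.mem_append, List.mem_append, g5, k5, hmem]
            tauto
  exact key G hG hGt hnd hF1 hF

end HX
end
end
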